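import Mathlib
import Pool.Agent.H20.SK.Fox

/-!
An explicit derivation of a free group with values in the regular representation of a finite quotient
which is faithful on the kernel, and the finite groups which it defines.
-/

set_option autoImplicit false

namespace Pool.Agent.H20.PR

open FreeGroup (of)
open scoped commutatorElement

variable {Z P : Type}

/-- the derivation with given values -/
theorem exists_d [Group P] [DecidableEq P] (α : FreeGroup Z →* P) {s t : Z} (hst : s ≠ t) :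
    ∃ d : FreeGroup Z → P → ℤ, (∀ g h p, d (g * h) p = d g p + d h ((α g)⁻¹ * p)) ∧
      (∀ p, d (of s) p = if p = 1 then 1 else 0) ∧
      ∀ p, d (of t) p = (if p = (α (of s))⁻¹ then 1 else 0) - (if p = 1 then 1 else 0) := by
  classical
  let L : P →* Equiv.Perm P := MulAction.toPermHom P P
  obtain ⟨d, h1, h2⟩ := Pool.Agent.H20.SK.exists_der (L.comp α) (fun z => if z = s then
    Finsupp.single (1 : P) (1 : ℤ) else if z = t then
      Finsupp.single (α (of s))⁻¹ (1 : ℤ) - Finsupp.single (1 : P) (1 : ℤ) else 0)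
  refine ⟨fun g p => d g p, fun g h p => ?_, fun p => ?_, fun p => ?_⟩
  · show d (g * h) p = d g p + d h ((α g)⁻¹ * p)
    rw [h2, Finsupp.add_apply]
    congr 1
    have h3 : p = (L.comp α) g ((α g)⁻¹ * p) := by
      show p = α g * ((α g)⁻¹ * p)
      rw [mul_inv_cancel_left]
    conv_lhs => rw [h3]
    rw [Finsupp.mapDomain_apply (Equiv.injective _)]
  · show d (of s) p = _
    rw [h1, if_pos rfl, Finsupp.single_apply]
    simp only [eq_comm]
  · show d (of t) p = _
    rw [h1, if_neg hst.symm, if_pos rfl, Finsupp.sub_apply, Finsupp.single_apply,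
      Finsupp.single_apply]
    simp only [eq_comm]

theorem sum_shift [Group P] [Fintype P] (g : P) (f : P → ℝ) : ∑ p, f (g * p) = ∑ p, f p :=
  Equiv.sum_comp (Equiv.mulLeft g) f

theorem der_faithful [Group P] [Fintype P] [DecidableEq P] (α : FreeGroup Z →* P)
    (hα : Function.Surjective α) (s t : Z) (d : FreeGroup Z → P → ℤ)
    (hd : ∀ g h p, d (g * h) p = d g p + d h ((α g)⁻¹ * p))
    (hs : ∀ p, d (of s) p = if p = 1 then 1 else 0)
    (ht : ∀ p, d (of t) p = (if p = (α (of s))⁻¹ then 1 else 0) - (if p = 1 then 1 else 0))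
    (b : P → ℝ) (hb : ∀ u, α u = 1 → ∑ q, b q * (d u q : ℝ) = 0) : ∀ p, b p = 0 := by
  -- the equivariant map
  let E : FreeGroup Z → P → ℝ := fun u p => ∑ q, b q * (d u (p * q) : ℝ)
  have hE : ∀ u v p, E (u * v) p = E u p + E v ((α u)⁻¹ * p) := by
    intro u v p
    show ∑ q, b q * (d (u * v) (p * q) : ℝ) = ∑ q, b q * (d u (p * q) : ℝ) +
      ∑ q, b q * (d v ((α u)⁻¹ * p * q) : ℝ)
    rw [← Finset.sum_add_distrib]
    refine Finset.sum_congr rfl fun q _ => ?_
    rw [hd, mul_assoc]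
    push_cast
    ring
  have hd1 : ∀ p, d 1 p = 0 := by
    intro p
    have h := hd 1 1 p
    rw [map_one, inv_one, one_mul, one_mul] at h
    omega
  have hconj : ∀ g k p, α k = 1 → d (g * k * g⁻¹) p = d k ((α g)⁻¹ * p) := by
    intro g k p hk
    have h1 := hd (g * k * g⁻¹) g p
    rw [inv_mul_cancel_right, map_mul, map_mul, hk, mul_one, map_inv, mul_inv_cancel, inv_one,
      one_mul] at h1
    have h2 := hd g k p
    omega
  have hK : ∀ k, α k = 1 → ∀ p, E k p = 0 := by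
    intro k hk p
    obtain ⟨g, hg⟩ := hα p⁻¹
    have h := hb (g * k * g⁻¹) (by rw [map_mul, map_mul, hk, mul_one, map_inv, mul_inv_cancel])
    rw [← h]
    refine Finset.sum_congr rfl fun q _ => ?_
    rw [hconj g k q hk, hg, inv_inv]
  have hdep : ∀ u v, α u = α v → ∀ p, E u p = E v p := by
    intro u v huv p
    have h1 : α (u * v⁻¹) = 1 := by rw [map_mul, map_inv, huv, mul_inv_cancel]
    have h := hE (u * v⁻¹) v p
    rw [inv_mul_cancel_right, hK _ h1, zero_add, h1, inv_one, one_mul] at h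
    exact h
  let l : P → FreeGroup Z := Function.surjInv hα
  have hl : ∀ p, α (l p) = p := Function.surjInv_eq hα
  let S : P → ℝ := fun p => ∑ g, E (l g) p
  let c : ℝ := Fintype.card P
  have hc : 0 < c := by
    show (0 : ℝ) < (Fintype.card P : ℝ)
    exact_mod_cast Fintype.card_pos
  have hin : ∀ u p, c * E u p = S p - S ((α u)⁻¹ * p) := by
    intro u p
    have h1 : ∑ g, E (u * l g) p = S p := by
      show _ = ∑ g, E (l g) p
      rw [← Equiv.sum_comp (Equiv.mulLeft (α u)) (fun g => E (l g) p)]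
      refine Finset.sum_congr rfl fun g _ => ?_
      apply hdep
      rw [map_mul, hl, hl]
      rfl
    have h2 : ∑ g, E (u * l g) p = c * E u p + S ((α u)⁻¹ * p) := by
      simp only [hE]
      rw [Finset.sum_add_distrib, Finset.sum_const, Finset.card_univ, nsmul_eq_mul]
    linarith
  have hEs : ∀ p, E (of s) p = b p⁻¹ := by
    intro p
    show ∑ q, b q * (d (of s) (p * q) : ℝ) = b p⁻¹
    rw [Finset.sum_eq_single p⁻¹]
    · rw [hs, mul_inv_cancel, if_pos rfl]
      push_cast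
      ring
    · intro q _ hq
      rw [hs, if_neg (fun h => hq (eq_inv_of_mul_eq_one_right h))]
      push_cast
      ring
    · intro h
      exact absurd (Finset.mem_univ _) h
  have hEt : ∀ p, E (of t) p = E (of s) (α (of s) * p) - E (of s) p := by
    intro p
    rw [hEs, hEs]
    show ∑ q, b q * (d (of t) (p * q) : ℝ) = _
    have h1 : ∀ q, b q * (d (of t) (p * q) : ℝ) =
        (if q = (α (of s) * p)⁻¹ then b q else 0) - (if q = p⁻¹ then b q else 0) := by
      intro q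
      rw [ht]
      have e1 : (p * q = (α (of s))⁻¹) ↔ q = (α (of s) * p)⁻¹ := by
        constructor
        · intro h
          rw [mul_inv_rev, ← h, inv_mul_cancel_left]
        · intro h
          rw [h, mul_inv_rev, mul_inv_cancel_left]
      have e2 : (p * q = 1) ↔ q = p⁻¹ :=
        ⟨fun h => eq_inv_of_mul_eq_one_right h, fun h => by rw [h, mul_inv_cancel]⟩
      simp only [e1, e2]
      split_ifs <;> push_cast <;> ring
    simp only [h1]
    rw [Finset.sum_sub_distrib, Finset.sum_ite_eq' Finset.univ, Finset.sum_ite_eq' Finset.univ,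
      if_pos (Finset.mem_univ _), if_pos (Finset.mem_univ _)]
  set σ := α (of s) with hσ
  set τ := α (of t) with hτ
  have key : ∀ p, S p - S (τ⁻¹ * p) = S (σ * p) - 2 * S p + S (σ⁻¹ * p) := by
    intro p
    have h1 := hin (of t) p
    have h2 := hin (of s) p
    have h3 := hin (of s) (σ * p)
    rw [hEt] at h1
    rw [← hσ] at h2 h3
    rw [← hτ] at h1
    rw [inv_mul_cancel_left] at h3
    linarith
  have q1 : ∑ p, (S p - S (τ⁻¹ * p)) * S p = ∑ p, (S (σ * p) - 2 * S p + S (σ⁻¹ * p)) * S p :=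
    Finset.sum_congr rfl fun p _ => by rw [key]
  have q2 : ∑ p, S (σ * p) * S p = ∑ p, S p * S (σ⁻¹ * p) := by
    rw [← sum_shift σ (fun p => S p * S (σ⁻¹ * p))]
    refine Finset.sum_congr rfl fun p _ => ?_
    rw [inv_mul_cancel_left]
  have q3 : ∑ p, S (σ⁻¹ * p) * S (σ⁻¹ * p) = ∑ p, S p * S p := sum_shift σ⁻¹ (fun p => S p * S p)
  have q4 : ∑ p, S (τ⁻¹ * p) * S (τ⁻¹ * p) = ∑ p, S p * S p := sum_shift τ⁻¹ (fun p => S p * S p)
  have q5 : ∑ p, (S p - S (τ⁻¹ * p)) ^ 2 + 2 * ∑ p, (S p - S (σ⁻¹ * p)) ^ 2 = 0 := by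
    have e1 : ∑ p, (S p - S (τ⁻¹ * p)) ^ 2 = 2 * ∑ p, (S p - S (τ⁻¹ * p)) * S p := by
      have : ∑ p, (S p - S (τ⁻¹ * p)) ^ 2 = ∑ p, (2 * ((S p - S (τ⁻¹ * p)) * S p) +
          (S (τ⁻¹ * p) * S (τ⁻¹ * p) - S p * S p)) :=
        Finset.sum_congr rfl fun p _ => by ring
      rw [this, Finset.sum_add_distrib, Finset.sum_sub_distrib, q4, sub_self, add_zero,
        Finset.mul_sum]
    have e2 : ∑ p, (S p - S (σ⁻¹ * p)) ^ 2 =
        - ∑ p, (S (σ * p) - 2 * S p + S (σ⁻¹ * p)) * S p := by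
      have t1 : ∑ p, (S p - S (σ⁻¹ * p)) ^ 2 = ∑ p, (S p * S p) + ∑ p, S (σ⁻¹ * p) * S (σ⁻¹ * p)
          - 2 * ∑ p, S p * S (σ⁻¹ * p) := by
        rw [Finset.mul_sum, ← Finset.sum_add_distrib, ← Finset.sum_sub_distrib]
        exact Finset.sum_congr rfl fun p _ => by ring
      have t2 : ∑ p, (S (σ * p) - 2 * S p + S (σ⁻¹ * p)) * S p = ∑ p, S (σ * p) * S p -
          2 * ∑ p, S p * S p + ∑ p, S p * S (σ⁻¹ * p) := by
        rw [Finset.mul_sum, ← Finset.sum_sub_distrib, ← Finset.sum_add_distrib]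
        exact Finset.sum_congr rfl fun p _ => by ring
      rw [t1, t2, q3, q2]
      ring
    rw [e1, e2, q1]
    ring
  have q6 : ∑ p, (S p - S (σ⁻¹ * p)) ^ 2 = 0 := by
    have h1 : 0 ≤ ∑ p, (S p - S (τ⁻¹ * p)) ^ 2 := Finset.sum_nonneg fun p _ => sq_nonneg _
    have h2 : 0 ≤ ∑ p, (S p - S (σ⁻¹ * p)) ^ 2 := Finset.sum_nonneg fun p _ => sq_nonneg _
    linarith
  have q7 : ∀ p, S p - S (σ⁻¹ * p) = 0 := by
    intro p
    have h := (Finset.sum_eq_zero_iff_of_nonneg (fun p _ => sq_nonneg _)).1 q6 p (Finset.mem_univ p)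
    exact pow_eq_zero_iff (two_ne_zero) |>.1 h
  intro p
  have h := hin (of s) p⁻¹
  rw [← hσ, q7, hEs, inv_inv] at h
  exact (mul_eq_zero.1 h).resolve_left hc.ne'

/-- commutators with the kernel -/
theorem d_comm [Group P] (α : FreeGroup Z →* P) (d : FreeGroup Z → P → ℤ)
    (hd : ∀ g h p, d (g * h) p = d g p + d h ((α g)⁻¹ * p)) (x u y : FreeGroup Z) (hu : α u = 1)
    (p : P) : d ⁅⁅x, u⁆, y⁆ p = d u ((α x)⁻¹ * p) - d u p - d u ((α x)⁻¹ * ((α y)⁻¹ * p)) +
      d u ((α y)⁻¹ * p) := by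
  have hw : ∀ p, d ⁅x, u⁆ p = d u ((α x)⁻¹ * p) - d u p := by
    intro p
    have h1 : ⁅x, u⁆ * (u * x) = x * u := by
      rw [commutatorElement_def]; group
    have h2 : α ⁅x, u⁆ = 1 := by
      rw [map_commutatorElement, hu, commutatorElement_one_right]
    have h3 := hd ⁅x, u⁆ (u * x) p
    rw [h1, h2, inv_one, one_mul, hd x u, hd u x, hu, inv_one, one_mul] at h3
    omega
  have hα : α ⁅x, u⁆ = 1 := by rw [map_commutatorElement, hu, commutatorElement_one_right]
  have h1 : ⁅⁅x, u⁆, y⁆ * (y * ⁅x, u⁆) = ⁅x, u⁆ * y := by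
    rw [commutatorElement_def ⁅x, u⁆ y]; group
  have h2 : α ⁅⁅x, u⁆, y⁆ = 1 := by
    rw [map_commutatorElement, hα, commutatorElement_one_left]
  have h3 := hd ⁅⁅x, u⁆, y⁆ (y * ⁅x, u⁆) p
  rw [h1, h2, inv_one, one_mul, hd ⁅x, u⁆ y, hd y ⁅x, u⁆, hα, inv_one, one_mul, hw, hw] at h3
  omega

/-- a finite group in which nontrivial images of elements have noncommuting conjugates -/
theorem exists_big [Group P] [Finite P] (α : FreeGroup Z →* P) (hα : Function.Surjective α)
    {s t : Z} (hst : s ≠ t) :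
    ∃ (X : Type) (_ : Finite X) (ω : FreeGroup Z →* Equiv.Perm X),
      ∀ x y : FreeGroup Z, α x ≠ 1 → α y ≠ 1 → ∃ u : FreeGroup Z, ω ⁅⁅x, u⁆, y⁆ ≠ 1 := by
  classical
  cases nonempty_fintype P
  obtain ⟨d, hd, hs, ht⟩ := exists_d α hst
  let val : FreeGroup Z → P → P → ℤ := fun u x y =>
    d u x⁻¹ - d u 1 - d u (x⁻¹ * y⁻¹) + d u y⁻¹
  have hex : ∀ x y : P, ∃ u, α u = 1 ∧ (x ≠ 1 → y ≠ 1 → val u x y ≠ 0) := by
    intro x y
    by_cases hxy : x ≠ 1 ∧ y ≠ 1
    · by_contra hcon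
      push Not at hcon
      let b : P → ℝ := fun q => (if q = x⁻¹ then 1 else 0) - (if q = 1 then 1 else 0) -
        (if q = x⁻¹ * y⁻¹ then 1 else 0) + (if q = y⁻¹ then 1 else 0)
      have h1 := der_faithful α hα s t d hd hs ht b (by
        intro u hu
        have h2 := (hcon u hu).2.2
        have h3 : ∑ q, b q * (d u q : ℝ) = ((val u x y : ℤ) : ℝ) := by
          show ∑ q, ((if q = x⁻¹ then (1 : ℝ) else 0) - (if q = 1 then 1 else 0) -
            (if q = x⁻¹ * y⁻¹ then 1 else 0) + (if q = y⁻¹ then 1 else 0)) * (d u q : ℝ) = _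
          simp only [add_mul, sub_mul, ite_mul, one_mul, zero_mul]
          rw [Finset.sum_add_distrib, Finset.sum_sub_distrib, Finset.sum_sub_distrib,
            Finset.sum_ite_eq' Finset.univ, Finset.sum_ite_eq' Finset.univ,
            Finset.sum_ite_eq' Finset.univ, Finset.sum_ite_eq' Finset.univ,
            if_pos (Finset.mem_univ _), if_pos (Finset.mem_univ _), if_pos (Finset.mem_univ _),
            if_pos (Finset.mem_univ _)]
          show _ = ((d u x⁻¹ - d u 1 - d u (x⁻¹ * y⁻¹) + d u y⁻¹ : ℤ) : ℝ)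
          push_cast
          ring
        rw [h3, h2]
        push_cast
        rfl) 1
      have h4 : b 1 = (0 : ℝ) - 1 - (if (1 : P) = x⁻¹ * y⁻¹ then 1 else 0) + 0 := by
        show (if (1 : P) = x⁻¹ then (1 : ℝ) else 0) - (if (1 : P) = 1 then 1 else 0) -
          (if (1 : P) = x⁻¹ * y⁻¹ then 1 else 0) + (if (1 : P) = y⁻¹ then 1 else 0) = _
        rw [if_neg (fun h => hxy.1 (inv_eq_one.1 h.symm)), if_pos rfl,
          if_neg (fun h : (1 : P) = y⁻¹ => hxy.2 (inv_eq_one.1 h.symm))]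
      rw [h4] at h1
      split_ifs at h1 <;> norm_num at h1
    · refine ⟨1, map_one _, fun h1 h2 => absurd ⟨h1, h2⟩ hxy⟩
  choose u hu1 hu2 using hex
  let N : ℕ := 1 + ∑ x, ∑ y, (val (u x y) x y).natAbs
  have hN : N ≠ 0 := by
    show 1 + _ ≠ 0
    omega
  have : NeZero N := ⟨hN⟩
  let ω₀ : FreeGroup Z →* Function.End (P → ZMod N) :=
    { toFun := fun g v p => (d g p : ZMod N) + v ((α g)⁻¹ * p)
      map_one' := by
        funext v p
        have h := hd 1 1 p
        rw [map_one, inv_one, one_mul, one_mul] at h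
        have h0 : d 1 p = 0 := by omega
        show (d 1 p : ZMod N) + v ((α 1)⁻¹ * p) = v p
        rw [h0, map_one, inv_one, one_mul, Int.cast_zero, zero_add]
      map_mul' := by
        intro g h
        funext v p
        show (d (g * h) p : ZMod N) + v ((α (g * h))⁻¹ * p) =
          (d g p : ZMod N) + ((d h ((α g)⁻¹ * p) : ZMod N) + v ((α h)⁻¹ * ((α g)⁻¹ * p)))
        rw [hd, map_mul, mul_inv_rev, mul_assoc]
        push_cast
        ring }
  let ω : FreeGroup Z →* Equiv.Perm (P → ZMod N) := MonoidHom.toHomPerm ω₀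
  refine ⟨P → ZMod N, inferInstance, ω, fun x y hx hy => ⟨u (α x) (α y), fun h => ?_⟩⟩
  have h1 : ω ⁅⁅x, u (α x) (α y)⁆, y⁆ (fun _ => 0) 1 = (0 : ZMod N) := by rw [h]; rfl
  have h2 : (d ⁅⁅x, u (α x) (α y)⁆, y⁆ 1 : ZMod N) + 0 = 0 := h1
  rw [add_zero, ZMod.intCast_zmod_eq_zero_iff_dvd, d_comm α d hd x _ y (hu1 _ _)] at h2
  simp only [mul_one] at h2
  have h3 : (N : ℤ) ∣ val (u (α x) (α y)) (α x) (α y) := h2
  have h4 := Int.natAbs_dvd_natAbs.2 h3
  rw [Int.natAbs_natCast] at h4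
  have h5 := hu2 (α x) (α y) hx hy
  have h6 := Nat.le_of_dvd (Int.natAbs_pos.2 h5) h4
  have h7 : (val (u (α x) (α y)) (α x) (α y)).natAbs ≤ ∑ x, ∑ y, (val (u x y) x y).natAbs := by
    calc (val (u (α x) (α y)) (α x) (α y)).natAbs
        ≤ ∑ y, (val (u (α x) y) (α x) y).natAbs :=
          Finset.single_le_sum (f := fun y => (val (u (α x) y) (α x) y).natAbs)
            (fun _ _ => Nat.zero_le _) (Finset.mem_univ (α y))
      _ ≤ _ := Finset.single_le_sum (f := fun x => ∑ y, (val (u x y) x y).natAbs)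
            (fun _ _ => Nat.zero_le _) (Finset.mem_univ (α x))
  have h8 : N = 1 + ∑ x, ∑ y, (val (u x y) x y).natAbs := rfl
  omega

end Pool.Agent.H20.PR
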