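import Mathlib
import Pool.Agent.H20.SK.Virt
import Pool.Agent.H20.PR.Der

/-!
Finitely generated groups with the same finite quotients, level by level.
-/

set_option autoImplicit false

namespace Pool.Agent.H20.PR

open FreeGroup (of)
open scoped commutatorElement

/-- every finite quotient of one group is a quotient of the other one -/
def SameQ (A B : Type) [Group A] [Group B] : Prop :=
  ∀ (Q : Type) [Group Q] [Finite Q],
    (∃ f : A →* Q, Function.Surjective f) ↔ (∃ f : B →* Q, Function.Surjective f)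

theorem SameQ.symm {A B : Type} [Group A] [Group B] (h : SameQ A B) : SameQ B A :=
  fun Q _ _ => (h Q).symm

/-- the intersection of the kernels of the homomorphisms to the symmetric group on `n` letters -/
def U (n : ℕ) (G : Type) [Group G] : Subgroup G := ⨅ f : G →* Equiv.Perm (Fin n), f.ker

theorem mem_U {n : ℕ} {G : Type} [Group G] {g : G} :
    g ∈ U n G ↔ ∀ f : G →* Equiv.Perm (Fin n), f g = 1 := by
  simp only [U, Subgroup.mem_iInf, MonoidHom.mem_ker]

instance U_normal (n : ℕ) (G : Type) [Group G] : (U n G).Normal := by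
  constructor
  intro x hx g
  rw [mem_U] at hx ⊢
  intro f
  rw [map_mul, map_mul, hx, mul_one, map_inv, mul_inv_cancel]

theorem U_perm {n : ℕ} {G X : Type} [Group G] [Finite X] (hX : Nat.card X ≤ n)
    (f : G →* Equiv.Perm X) {g : G} (hg : g ∈ U n G) : f g = 1 := by
  classical
  cases nonempty_fintype X
  rw [Nat.card_eq_fintype_card] at hX
  obtain ⟨ι⟩ : Nonempty (X ↪ Fin n) :=
    Function.Embedding.nonempty_of_card_le (by rwa [Fintype.card_fin])
  have h := mem_U.1 hg ((Equiv.Perm.viaEmbeddingHom ι).comp f)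
  apply Equiv.Perm.viaEmbeddingHom_injective ι
  rw [map_one]
  exact h

theorem U_finite {n : ℕ} {G W : Type} [Group G] [Group W] [Finite W] (hW : Nat.card W ≤ n)
    (f : G →* W) {g : G} (hg : g ∈ U n G) : f g = 1 := by
  have h := U_perm hW ((MulAction.toPermHom W W).comp f) hg
  have h2 : f g • (1 : W) = (1 : W) := by
    have h3 := congrArg (fun e : Equiv.Perm W => e 1) h
    exact h3
  rwa [smul_eq_mul, mul_one] at h2

theorem U_mono {m n : ℕ} (hmn : m ≤ n) {G : Type} [Group G] {g : G} (hg : g ∈ U n G) :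
    g ∈ U m G := by
  rw [mem_U]
  intro f
  exact U_perm (by rwa [Nat.card_fin]) f hg

theorem U_map {n : ℕ} {G H : Type} [Group G] [Group H] (φ : G →* H) {g : G} (hg : g ∈ U n G) :
    φ g ∈ U n H := by
  rw [mem_U] at hg ⊢
  intro f
  exact hg (f.comp φ)

theorem U_fi {G : Type} [Group G] (hG : Group.FG G) (n : ℕ) : (U n G).FiniteIndex := by
  have : Finite (G →* Equiv.Perm (Fin n)) := Pool.Agent.H20.SK.finite_hom hG
  have h : ∀ f : G →* Equiv.Perm (Fin n), f.ker.FiniteIndex := fun f => Subgroup.finiteIndex_ker f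
  exact Subgroup.finiteIndex_iInf h

/-- **groups with the same finite quotients: one level** -/
theorem level {Γ G : Type} [Group Γ] [Group G] (hΓ : Group.FG Γ) (hG : Group.FG G)
    (h : SameQ Γ G) (n : ℕ) :
    ∃ f : Γ →* G ⧸ U n G, Function.Surjective f ∧ f.ker = U n Γ := by
  have key : ∀ {A B : Type} [Group A] [Group B], Group.FG B → SameQ A B →
      ∃ f : A →* B ⧸ U n B, Function.Surjective f ∧ U n A ≤ f.ker := by
    intro A B _ _ hB hAB
    have := U_fi hB n
    have hfin : Finite (B ⧸ U n B) := inferInstance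
    obtain ⟨f, hf⟩ := (hAB (B ⧸ U n B)).2 ⟨QuotientGroup.mk' _, QuotientGroup.mk'_surjective _⟩
    refine ⟨f, hf, fun a ha => ?_⟩
    rw [MonoidHom.mem_ker]
    obtain ⟨b, hb⟩ := QuotientGroup.mk'_surjective (U n B) (f a)
    rw [← hb]
    show ((b : B ⧸ U n B)) = 1
    rw [QuotientGroup.eq_one_iff, mem_U]
    intro g
    have hg : U n B ≤ g.ker := fun x hx => mem_U.1 hx g
    have h1 := mem_U.1 ha ((QuotientGroup.lift (U n B) g hg).comp f)
    rw [MonoidHom.comp_apply, ← hb] at h1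
    exact h1
  obtain ⟨f, hf, hfk⟩ := key hG h
  obtain ⟨f', hf', hfk'⟩ := key hΓ h.symm
  refine ⟨f, hf, le_antisymm ?_ hfk⟩
  have hfi1 := U_fi hΓ n
  have hfi2 := U_fi hG n
  have i1 : f.ker.index = (U n G).index := by
    rw [Subgroup.index_ker, MonoidHom.range_eq_top.2 hf, Subgroup.index_eq_card]
    exact Nat.card_congr Subgroup.topEquiv.toEquiv
  have i2 : f'.ker.index = (U n Γ).index := by
    rw [Subgroup.index_ker, MonoidHom.range_eq_top.2 hf', Subgroup.index_eq_card]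
    exact Nat.card_congr Subgroup.topEquiv.toEquiv
  have i3 := Subgroup.relIndex_mul_index hfk
  have i4 := Subgroup.relIndex_mul_index hfk'
  have p1 : (U n Γ).index ≠ 0 := hfi1.index_ne_zero
  have p2 : (U n G).index ≠ 0 := hfi2.index_ne_zero
  have i5 : (U n Γ).index ≤ (U n G).index := by
    rw [← i2, ← i4]
    refine Nat.le_mul_of_pos_left _ (Nat.pos_of_ne_zero fun h0 => ?_)
    rw [h0, zero_mul] at i4
    exact p2 i4.symm
  have i6 : (U n Γ).relIndex f.ker = 1 := by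
    rw [i1] at i3
    have hle : (U n Γ).relIndex f.ker * (U n G).index ≤ 1 * (U n G).index := by
      rw [i3, one_mul]; exact i5
    have h1 := Nat.le_of_mul_le_mul_right hle (Nat.pos_of_ne_zero p2)
    have h0 : (U n Γ).relIndex f.ker ≠ 0 := by
      intro h0
      rw [h0, zero_mul] at i3
      exact p1 i3.symm
    omega
  exact Subgroup.relIndex_eq_one.1 i6

theorem lift_level {Γ K W : Type} [Group Γ] [Group K] [Group W] (h : Γ →* K)
    (hs : Function.Surjective h) (f : Γ →* W) (hf : h.ker ≤ f.ker) :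
    ∃ g : K →* W, ∀ x, g (h x) = f x := by
  refine ⟨h.liftOfSurjective hs ⟨f, hf⟩, fun x => ?_⟩
  exact MonoidHom.liftOfRightInverse_comp_apply h _ _ ⟨f, hf⟩ x

/-- **the main construction** -/
theorem levelD {Γ Z Z' : Type} [Group Γ] (fgZ : Group.FG (FreeGroup Z))
    (fgZ' : Group.FG (FreeGroup Z')) (hΓ : Group.FG Γ)
    (h : SameQ Γ (FreeGroup Z × FreeGroup Z')) (r : ℕ) :
    ∃ Φ : Γ →* (FreeGroup Z ⧸ U r (FreeGroup Z)) × (FreeGroup Z' ⧸ U r (FreeGroup Z')),
      Function.Surjective Φ ∧ Φ.ker ≤ U r Γ ∧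
      ((∃ s t : Z, s ≠ t) → ∀ c c' : Γ, (∀ γ : Γ, ⁅⁅c, γ⁆, c'⁆ = 1) →
        (Φ c).1 = 1 ∨ (Φ c').1 = 1) ∧
      ((∃ s t : Z', s ≠ t) → ∀ c c' : Γ, (∀ γ : Γ, ⁅⁅c, γ⁆, c'⁆ = 1) →
        (Φ c).2 = 1 ∨ (Φ c').2 = 1) := by
  classical
  have hG : Group.FG (FreeGroup Z × FreeGroup Z') := inferInstance
  have f1 := U_fi fgZ r
  have f2 := U_fi fgZ' r
  -- big groups
  have big1 : ∃ (X : Type) (_ : Finite X) (ω : FreeGroup Z →* Equiv.Perm X), (∃ s t : Z, s ≠ t) →
      ∀ x y : FreeGroup Z, x ∉ U r (FreeGroup Z) → y ∉ U r (FreeGroup Z) →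
        ∃ u : FreeGroup Z, ω ⁅⁅x, u⁆, y⁆ ≠ 1 := by
    by_cases hst : ∃ s t : Z, s ≠ t
    · obtain ⟨s, t, hst'⟩ := hst
      obtain ⟨X, hX, ω, hω⟩ := exists_big (QuotientGroup.mk' (U r (FreeGroup Z)))
        (QuotientGroup.mk'_surjective _) hst'
      refine ⟨X, hX, ω, fun _ x y hx hy => hω x y ?_ ?_⟩
      · intro h; exact hx ((QuotientGroup.eq_one_iff _).1 h)
      · intro h; exact hy ((QuotientGroup.eq_one_iff _).1 h)
    · exact ⟨Unit, inferInstance, 1, fun h => absurd h hst⟩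
  have big2 : ∃ (X : Type) (_ : Finite X) (ω : FreeGroup Z' →* Equiv.Perm X),
      (∃ s t : Z', s ≠ t) →
      ∀ x y : FreeGroup Z', x ∉ U r (FreeGroup Z') → y ∉ U r (FreeGroup Z') →
        ∃ u : FreeGroup Z', ω ⁅⁅x, u⁆, y⁆ ≠ 1 := by
    by_cases hst : ∃ s t : Z', s ≠ t
    · obtain ⟨s, t, hst'⟩ := hst
      obtain ⟨X, hX, ω, hω⟩ := exists_big (QuotientGroup.mk' (U r (FreeGroup Z')))
        (QuotientGroup.mk'_surjective _) hst'
      refine ⟨X, hX, ω, fun _ x y hx hy => hω x y ?_ ?_⟩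
      · intro h; exact hx ((QuotientGroup.eq_one_iff _).1 h)
      · intro h; exact hy ((QuotientGroup.eq_one_iff _).1 h)
    · exact ⟨Unit, inferInstance, 1, fun h => absurd h hst⟩
  obtain ⟨X₁, hX₁, ω₁, hω₁⟩ := big1
  obtain ⟨X₂, hX₂, ω₂, hω₂⟩ := big2
  let A := FreeGroup Z ⧸ U r (FreeGroup Z)
  let B := FreeGroup Z' ⧸ U r (FreeGroup Z')
  let π : FreeGroup Z × FreeGroup Z' →* A × B :=
    MonoidHom.prodMap (QuotientGroup.mk' _) (QuotientGroup.mk' _)
  have hπs : Function.Surjective π :=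
    Function.Surjective.prodMap (QuotientGroup.mk'_surjective _) (QuotientGroup.mk'_surjective _)
  obtain ⟨R, hR⟩ : ∃ R : ℕ, R = r + Nat.card (A × B) + Nat.card X₁ + Nat.card X₂ := ⟨_, rfl⟩
  obtain ⟨h₀, hs, hk⟩ := level hΓ hG h R
  have hπk : (QuotientGroup.mk' (U R (FreeGroup Z × FreeGroup Z'))).ker ≤ π.ker := by
    rw [QuotientGroup.ker_mk']
    intro x hx
    have : Finite (A × B) := inferInstance
    exact U_finite (by omega) π hx
  obtain ⟨π', hπ'⟩ := lift_level (QuotientGroup.mk' (U R (FreeGroup Z × FreeGroup Z')))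
    (QuotientGroup.mk'_surjective _) π hπk
  have hlift : ∀ γ : Γ, ∃ g : FreeGroup Z × FreeGroup Z',
      QuotientGroup.mk' (U R (FreeGroup Z × FreeGroup Z')) g = h₀ γ :=
    fun γ => QuotientGroup.mk'_surjective _ (h₀ γ)
  have hker : ∀ g : FreeGroup Z × FreeGroup Z',
      QuotientGroup.mk' (U R (FreeGroup Z × FreeGroup Z')) g = 1 →
        g ∈ U R (FreeGroup Z × FreeGroup Z') := fun g hg => (QuotientGroup.eq_one_iff g).1 hg
  have comm1 : ∀ c c' : Γ, (∀ γ : Γ, ⁅⁅c, γ⁆, c'⁆ = 1) → ∀ g g' : FreeGroup Z × FreeGroup Z',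
      QuotientGroup.mk' (U R (FreeGroup Z × FreeGroup Z')) g = h₀ c →
      QuotientGroup.mk' (U R (FreeGroup Z × FreeGroup Z')) g' = h₀ c' →
      ∀ u : FreeGroup Z × FreeGroup Z', ⁅⁅g, u⁆, g'⁆ ∈ U R (FreeGroup Z × FreeGroup Z') := by
    intro c c' hcc g g' hg hg' u
    apply hker
    obtain ⟨γ, hγ⟩ := hs (QuotientGroup.mk' (U R (FreeGroup Z × FreeGroup Z')) u)
    rw [map_commutatorElement, map_commutatorElement, hg, hg', ← hγ, ← map_commutatorElement,
      ← map_commutatorElement, hcc, map_one]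
  refine ⟨π'.comp h₀, ?_, ?_, ?_, ?_⟩
  · intro y
    obtain ⟨g, hg⟩ := hπs y
    obtain ⟨γ, hγ⟩ := hs (QuotientGroup.mk' (U R (FreeGroup Z × FreeGroup Z')) g)
    refine ⟨γ, ?_⟩
    rw [MonoidHom.comp_apply, hγ, hπ', hg]
  · intro γ hγ
    rw [MonoidHom.mem_ker, MonoidHom.comp_apply] at hγ
    rw [mem_U]
    intro f
    obtain ⟨g, hg⟩ := hlift γ
    rw [← hg, hπ'] at hγ
    have hg1 : g.1 ∈ U r (FreeGroup Z) := (QuotientGroup.eq_one_iff _).1 (congrArg Prod.fst hγ)
    have hg2 : g.2 ∈ U r (FreeGroup Z') := (QuotientGroup.eq_one_iff _).1 (congrArg Prod.snd hγ)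
    obtain ⟨F, hF⟩ := lift_level h₀ hs f (by
      rw [hk]
      intro x hx
      exact mem_U.1 (U_mono (by omega) hx) f)
    rw [← hF, ← hg]
    let F' : FreeGroup Z × FreeGroup Z' →* Equiv.Perm (Fin r) :=
      F.comp (QuotientGroup.mk' (U R (FreeGroup Z × FreeGroup Z')))
    show F' g = 1
    have e : g = (g.1, 1) * (1, g.2) := by
      rw [Prod.mk_mul_mk, mul_one, one_mul]
    rw [e, map_mul]
    have e1 : F' (g.1, 1) = 1 := mem_U.1 hg1 (F'.comp (MonoidHom.inl _ _))
    have e2 : F' (1, g.2) = 1 := mem_U.1 hg2 (F'.comp (MonoidHom.inr _ _))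
    rw [e1, e2, mul_one]
  · intro hst c c' hcc
    by_contra hcon
    push Not at hcon
    obtain ⟨g, hg⟩ := hlift c
    obtain ⟨g', hg'⟩ := hlift c'
    have n1 : g.1 ∉ U r (FreeGroup Z) := by
      intro h1
      apply hcon.1
      rw [MonoidHom.comp_apply, ← hg, hπ']
      exact (QuotientGroup.eq_one_iff _).2 h1
    have n2 : g'.1 ∉ U r (FreeGroup Z) := by
      intro h1
      apply hcon.2
      rw [MonoidHom.comp_apply, ← hg', hπ']
      exact (QuotientGroup.eq_one_iff _).2 h1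
    obtain ⟨u, hu⟩ := hω₁ hst g.1 g'.1 n1 n2
    apply hu
    have h1 := comm1 c c' hcc g g' hg hg' (u, 1)
    have h2 := U_perm (X := X₁) (by omega) (ω₁.comp (MonoidHom.fst _ _)) h1
    exact h2
  · intro hst c c' hcc
    by_contra hcon
    push Not at hcon
    obtain ⟨g, hg⟩ := hlift c
    obtain ⟨g', hg'⟩ := hlift c'
    have n1 : g.2 ∉ U r (FreeGroup Z') := by
      intro h1
      apply hcon.1
      rw [MonoidHom.comp_apply, ← hg, hπ']
      exact (QuotientGroup.eq_one_iff _).2 h1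
    have n2 : g'.2 ∉ U r (FreeGroup Z') := by
      intro h1
      apply hcon.2
      rw [MonoidHom.comp_apply, ← hg', hπ']
      exact (QuotientGroup.eq_one_iff _).2 h1
    obtain ⟨u, hu⟩ := hω₂ hst g.2 g'.2 n1 n2
    apply hu
    have h1 := comm1 c c' hcc g g' hg hg' (1, u)
    have h2 := U_perm (X := X₂) (by omega) (ω₂.comp (MonoidHom.snd _ _)) h1
    exact h2

end Pool.Agent.H20.PR
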