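import Mathlib
import Pool.Agent.H20.PR.Lev

/-!
Ranks of free groups and the decomposition of a subdirect product of finite index with the finite
quotients of a product of two free groups.
-/

set_option autoImplicit false

namespace Pool.Agent.H20.PR

open FreeGroup (of)

/-- ranks and elementary abelian quotients -/
theorem rank_le {Y Z : Type} [Finite Y] [Finite Z] {q : ℕ} (hq : 2 ≤ q)
    (f : FreeGroup Y →* Multiplicative (Z → ZMod q)) (hf : Function.Surjective f) :
    Nat.card Z ≤ Nat.card Y := by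
  classical
  cases nonempty_fintype Y
  cases nonempty_fintype Z
  have hq0 : NeZero q := ⟨by omega⟩
  let L := Fintype.linearCombination (ZMod q) (fun y : Y => (Multiplicative.toAdd (f (of y)) : Z → ZMod q))
  have hL : ∀ w, Multiplicative.toAdd (f w) ∈ LinearMap.range L := by
    intro w
    induction w using FreeGroup.induction_on with
    | C1 => rw [map_one]; exact Submodule.zero_mem _
    | of y => exact ⟨Pi.single y 1, by rw [Fintype.linearCombination_apply_single, one_smul]⟩
    | inv_of y h => rw [map_inv]; exact Submodule.neg_mem _ h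
    | mul x y hx hy => rw [map_mul]; exact Submodule.add_mem _ hx hy
  have hs : Function.Surjective L := by
    intro v
    obtain ⟨w, hw⟩ := hf (Multiplicative.ofAdd v)
    have h := hL w
    rw [hw] at h
    exact h
  have h1 := Fintype.card_le_of_surjective L hs
  rw [Fintype.card_fun, Fintype.card_fun, ZMod.card] at h1
  rw [Nat.card_eq_fintype_card, Nat.card_eq_fintype_card]
  exact (Nat.pow_le_pow_iff_right (by omega)).1 h1

theorem ab_surj (Z : Type) [Finite Z] (q : ℕ) : ∃ f : FreeGroup Z →* Multiplicative (Z → ZMod q),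
    Function.Surjective f := by
  classical
  cases nonempty_fintype Z
  let f : FreeGroup Z →* Multiplicative (Z → ZMod q) :=
    FreeGroup.lift fun z => Multiplicative.ofAdd (Pi.single z 1)
  refine ⟨f, ?_⟩
  have hr : ∀ v : Z → ZMod q, Multiplicative.ofAdd v ∈ f.range := by
    intro v
    have h1 : v = ∑ z, Pi.single z (v z) := (Finset.univ_sum_single v).symm
    rw [h1, ofAdd_sum]
    apply Subgroup.prod_mem
    intro z _
    obtain ⟨k, hk⟩ := ZMod.intCast_surjective (v z)
    refine ⟨of z ^ k, ?_⟩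
    rw [map_zpow]
    have h2 : f (of z) = Multiplicative.ofAdd (Pi.single z 1) := FreeGroup.lift_apply_of
    rw [h2, ← ofAdd_zsmul, ← Pi.single_smul, zsmul_one, hk]
  intro v
  exact hr (Multiplicative.toAdd v)

theorem free_fg_finite {Y : Type} (h : Group.FG (FreeGroup Y)) : Finite Y := by
  classical
  have h1 : Finite (FreeGroup Y →* Multiplicative (ZMod 2)) := Pool.Agent.H20.SK.finite_hom h
  let g : Y → (FreeGroup Y →* Multiplicative (ZMod 2)) := fun y =>
    FreeGroup.lift fun z => if z = y then Multiplicative.ofAdd 1 else 1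
  apply Finite.of_injective g
  intro x y hxy
  have h2 : g x (of x) = g y (of x) := by rw [hxy]
  have h3 : g x (of x) = if x = x then Multiplicative.ofAdd (1 : ZMod 2) else 1 :=
    FreeGroup.lift_apply_of
  have h4 : g y (of x) = if x = y then Multiplicative.ofAdd (1 : ZMod 2) else 1 :=
    FreeGroup.lift_apply_of
  rw [h3, h4, if_pos rfl] at h2
  by_contra hne
  rw [if_neg hne] at h2
  exact one_ne_zero (Multiplicative.ofAdd.injective h2)

theorem prod_rank_le {Z Z' W : Type} [Finite Z] [Finite Z'] [Finite W] {q : ℕ} (hq : 2 ≤ q)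
    (f : FreeGroup Z × FreeGroup Z' →* Multiplicative (W → ZMod q)) (hf : Function.Surjective f) :
    Nat.card W ≤ Nat.card Z + Nat.card Z' := by
  let g : FreeGroup (Z ⊕ Z') →* FreeGroup Z × FreeGroup Z' :=
    FreeGroup.lift (Sum.elim (fun z => (of z, 1)) (fun z => (1, of z)))
  have hg1 : ∀ x : FreeGroup Z, (x, 1) ∈ g.range := by
    intro x
    induction x using FreeGroup.induction_on with
    | C1 => exact one_mem _
    | of z => exact ⟨of (Sum.inl z), FreeGroup.lift_apply_of⟩
    | inv_of z h => exact inv_mem h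
    | mul x y hx hy => exact mul_mem hx hy
  have hg2 : ∀ x : FreeGroup Z', (1, x) ∈ g.range := by
    intro x
    induction x using FreeGroup.induction_on with
    | C1 => exact one_mem _
    | of z => exact ⟨of (Sum.inr z), FreeGroup.lift_apply_of⟩
    | inv_of z h => exact inv_mem h
    | mul x y hx hy => exact mul_mem hx hy
  have hg : Function.Surjective g := by
    rintro ⟨x, y⟩
    have h := mul_mem (hg1 x) (hg2 y)
    rw [Prod.mk_mul_mk, mul_one, one_mul] at h
    exact h
  have h := rank_le hq (f.comp g) (hf.comp hg)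
  rwa [Nat.card_sum] at h

/-- the two possible positions of the factors at one level -/
def Alt {Γ F₁ F₂ : Type} [Group Γ] [Group F₁] [Group F₂] (Z Z' : Type) (p : Γ →* F₁) (q : Γ →* F₂)
    (r : ℕ) : Prop :=
  ∃ Φ : Γ →* (FreeGroup Z ⧸ U r (FreeGroup Z)) × (FreeGroup Z' ⧸ U r (FreeGroup Z')),
    Function.Surjective Φ ∧ (∀ γ, p γ = 1 → (Φ γ).1 = 1) ∧ (∀ γ, q γ = 1 → (Φ γ).2 = 1)

theorem U_quot_trivial {F : Type} [Group F] (r : ℕ) {x : F ⧸ U r F} (hx : x ∈ U r (F ⧸ U r F)) :
    x = 1 := by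
  obtain ⟨y, rfl⟩ := QuotientGroup.mk'_surjective (U r F) x
  show (y : F ⧸ U r F) = 1
  rw [QuotientGroup.eq_one_iff, mem_U]
  intro g
  have hg : U r F ≤ g.ker := fun x hx => mem_U.1 hx g
  exact mem_U.1 hx (QuotientGroup.lift (U r F) g hg)

theorem U_index_eq {F F' : Type} [Group F] [Group F'] (e : F ≃* F') (r : ℕ) :
    (U r F).index = (U r F').index := by
  have h : (U r F').comap e.toMonoidHom = U r F := by
    ext x
    rw [Subgroup.mem_comap]
    constructor
    · intro hx
      have := U_map e.symm.toMonoidHom hx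
      have h2 : e.symm.toMonoidHom (e.toMonoidHom x) = x := e.symm_apply_apply x
      rwa [h2] at this
    · intro hx
      exact U_map e.toMonoidHom hx
  rw [← h]
  exact Subgroup.index_comap_of_surjective _ e.surjective

theorem ker_eq_U {Y Z : Type} (hY : Group.FG (FreeGroup Y))
    (e : FreeGroup Y ≃* FreeGroup Z) (r : ℕ) (f : FreeGroup Y →* FreeGroup Z ⧸ U r (FreeGroup Z))
    (hf : Function.Surjective f) : f.ker = U r (FreeGroup Y) := by
  have hle : U r (FreeGroup Y) ≤ f.ker := by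
    intro x hx
    rw [MonoidHom.mem_ker]
    exact U_quot_trivial r (U_map f hx)
  have i1 : f.ker.index = (U r (FreeGroup Z)).index := by
    rw [Subgroup.index_ker, MonoidHom.range_eq_top.2 hf, Subgroup.index_eq_card]
    exact Nat.card_congr Subgroup.topEquiv.toEquiv
  rw [← U_index_eq e] at i1
  have i3 := Subgroup.relIndex_mul_index hle
  have p1 : (U r (FreeGroup Y)).index ≠ 0 := (U_fi hY r).index_ne_zero
  rw [i1] at i3
  have i6 : (U r (FreeGroup Y)).relIndex f.ker = 1 := by
    have := Nat.mul_right_cancel (Nat.pos_of_ne_zero p1) (i3.trans (one_mul _).symm)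
    exact this
  exact le_antisymm (Subgroup.relIndex_eq_one.1 i6) hle

theorem lemE {Γ Y₁ Y₂ Z Z' : Type} [Group Γ] [Finite Y₁] [Finite Y₂] [Finite Z] [Finite Z']
    (h : SameQ Γ (FreeGroup Z × FreeGroup Z'))
    (p : Γ →* FreeGroup Y₁) (q : Γ →* FreeGroup Y₂) (hp : Function.Surjective p)
    (hq : Function.Surjective q) (hinj : ∀ γ, p γ = 1 → q γ = 1 → γ = 1)
    (h1 : (q.ker.map p).FiniteIndex) (h2 : (p.ker.map q).FiniteIndex)
    (halt : ∀ R : ℕ, ∃ r, R ≤ r ∧ Alt Z Z' p q r) :
    Nonempty (Γ ≃* FreeGroup Z × FreeGroup Z') := by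
  classical
  cases nonempty_fintype Y₁
  cases nonempty_fintype Y₂
  cases nonempty_fintype Z
  cases nonempty_fintype Z'
  -- the factor maps of a level
  have hfac : ∀ r, Alt Z Z' p q r → ∃ (Φ : Γ →* (FreeGroup Z ⧸ U r (FreeGroup Z)) ×
      (FreeGroup Z' ⧸ U r (FreeGroup Z'))) (fA : FreeGroup Y₁ →* FreeGroup Z ⧸ U r (FreeGroup Z))
      (fB : FreeGroup Y₂ →* FreeGroup Z' ⧸ U r (FreeGroup Z')),
      Function.Surjective Φ ∧ Function.Surjective fA ∧ Function.Surjective fB ∧
      (∀ γ, fA (p γ) = (Φ γ).1) ∧ (∀ γ, fB (q γ) = (Φ γ).2) := by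
    rintro r ⟨Φ, hΦ, ha, hb⟩
    obtain ⟨fA, hfA⟩ := lift_level p hp ((MonoidHom.fst _ _).comp Φ) (fun x hx => ha x hx)
    obtain ⟨fB, hfB⟩ := lift_level q hq ((MonoidHom.snd _ _).comp Φ) (fun x hx => hb x hx)
    refine ⟨Φ, fA, fB, hΦ, ?_, ?_, hfA, hfB⟩
    · intro y
      obtain ⟨γ, hγ⟩ := hΦ (y, 1)
      exact ⟨p γ, by rw [hfA]; show (Φ γ).1 = y; rw [hγ]⟩
    · intro y
      obtain ⟨γ, hγ⟩ := hΦ (1, y)
      exact ⟨q γ, by rw [hfB]; show (Φ γ).2 = y; rw [hγ]⟩
  -- ranks, first inequality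
  obtain ⟨r₀, hr₀, halt₀⟩ := halt (Nat.card (Multiplicative (Z → ZMod 2)) +
    Nat.card (Multiplicative (Z' → ZMod 2)))
  obtain ⟨Φ, fA, fB, hΦ, hA, hB, -, -⟩ := hfac r₀ halt₀
  have rk1 : Nat.card Z ≤ Nat.card Y₁ := by
    obtain ⟨f, hf⟩ := ab_surj Z 2
    obtain ⟨g, hg⟩ := lift_level (QuotientGroup.mk' (U r₀ (FreeGroup Z)))
      (QuotientGroup.mk'_surjective _) f (by
        rw [QuotientGroup.ker_mk']
        intro x hx
        exact U_finite (by omega) f hx)
    have hgs : Function.Surjective g := by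
      intro v
      obtain ⟨x, hx⟩ := hf v
      exact ⟨QuotientGroup.mk' _ x, by rw [hg, hx]⟩
    exact rank_le le_rfl (g.comp fA) (hgs.comp hA)
  have rk2 : Nat.card Z' ≤ Nat.card Y₂ := by
    obtain ⟨f, hf⟩ := ab_surj Z' 2
    obtain ⟨g, hg⟩ := lift_level (QuotientGroup.mk' (U r₀ (FreeGroup Z')))
      (QuotientGroup.mk'_surjective _) f (by
        rw [QuotientGroup.ker_mk']
        intro x hx
        exact U_finite (by omega) f hx)
    have hgs : Function.Surjective g := by
      intro v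
      obtain ⟨x, hx⟩ := hf v
      exact ⟨QuotientGroup.mk' _ x, by rw [hg, hx]⟩
    exact rank_le le_rfl (g.comp fB) (hgs.comp hB)
  -- ranks, second inequality
  let j : Γ →* FreeGroup Y₁ × FreeGroup Y₂ := p.prod q
  have hjr : ∀ x ∈ q.ker.map p, ∀ y ∈ p.ker.map q, (x, y) ∈ j.range := by
    rintro x ⟨a, ha, rfl⟩ y ⟨b, hb, rfl⟩
    refine ⟨a * b, ?_⟩
    show (p (a * b), q (a * b)) = (p a, q b)
    rw [map_mul, map_mul, show p b = 1 from hb, show q a = 1 from ha, mul_one, one_mul]
  have hjfi : j.range.FiniteIndex := by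
    have h3 : ((q.ker.map p).prod (p.ker.map q)).FiniteIndex := by
      constructor
      rw [Subgroup.index_prod]
      exact mul_ne_zero h1.index_ne_zero h2.index_ne_zero
    exact Subgroup.finiteIndex_of_le (H := (q.ker.map p).prod (p.ker.map q))
      (fun x hx => hjr x.1 hx.1 x.2 hx.2)
  have rk3 : Nat.card Y₁ + Nat.card Y₂ ≤ Nat.card Z + Nat.card Z' := by
    obtain ⟨ℓ, hℓ1, hℓ2⟩ := Nat.exists_infinite_primes (j.range.index + 1)
    have hℓ : Fact ℓ.Prime := ⟨hℓ2⟩
    obtain ⟨f1, hf1⟩ := ab_surj Y₁ ℓ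
    obtain ⟨f2, hf2⟩ := ab_surj Y₂ ℓ
    let θ : FreeGroup Y₁ × FreeGroup Y₂ →* Multiplicative ((Y₁ ⊕ Y₂) → ZMod ℓ) :=
      { toFun := fun x => Multiplicative.ofAdd
          (Sum.elim (Multiplicative.toAdd (f1 x.1)) (Multiplicative.toAdd (f2 x.2)))
        map_one' := by
          show Multiplicative.ofAdd (Sum.elim (Multiplicative.toAdd (f1 1))
            (Multiplicative.toAdd (f2 1))) = 1
          rw [map_one f1, map_one f2]
          apply Multiplicative.toAdd.injective
          funext z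
          rcases z with z | z <;> rfl
        map_mul' := by
          intro x y
          show Multiplicative.ofAdd (Sum.elim (Multiplicative.toAdd (f1 (x.1 * y.1)))
            (Multiplicative.toAdd (f2 (x.2 * y.2)))) = _
          rw [map_mul f1, map_mul f2]
          apply Multiplicative.toAdd.injective
          funext z
          rcases z with z | z <;> rfl }
    have hθ : Function.Surjective θ := by
      intro v
      obtain ⟨a, ha⟩ := hf1 (Multiplicative.ofAdd fun z => Multiplicative.toAdd v (Sum.inl z))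
      obtain ⟨b, hb⟩ := hf2 (Multiplicative.ofAdd fun z => Multiplicative.toAdd v (Sum.inr z))
      refine ⟨(a, b), ?_⟩
      show Multiplicative.ofAdd (Sum.elim (Multiplicative.toAdd (f1 a))
            (Multiplicative.toAdd (f2 b))) = v
      rw [ha, hb]
      apply Multiplicative.toAdd.injective
      funext z
      rcases z with z | z <;> rfl
    have hsurj : Function.Surjective (θ.comp j) := by
      have h4 : (j.range.map θ).index ∣ j.range.index := Subgroup.index_map_dvd _ hθ
      have h5 : (j.range.map θ).index ∣ Nat.card (Multiplicative ((Y₁ ⊕ Y₂) → ZMod ℓ)) :=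
        Subgroup.index_dvd_card _
      have h6 : Nat.card (Multiplicative ((Y₁ ⊕ Y₂) → ZMod ℓ)) = ℓ ^ Nat.card (Y₁ ⊕ Y₂) := by
        have : Nat.card (Multiplicative ((Y₁ ⊕ Y₂) → ZMod ℓ)) = Nat.card ((Y₁ ⊕ Y₂) → ZMod ℓ) := rfl
        rw [this, Nat.card_fun, Nat.card_zmod]
      rw [h6] at h5
      obtain ⟨i, -, hi⟩ := (Nat.dvd_prime_pow hℓ2).1 h5
      have h7 : (j.range.map θ).index = 1 := by
        rcases Nat.eq_zero_or_pos i with h0 | h0
        · rw [hi, h0, pow_zero]
        · exfalso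
          have h8 : ℓ ∣ j.range.index := (dvd_pow_self ℓ h0.ne').trans (hi ▸ h4)
          have h9 := Nat.le_of_dvd (Nat.pos_of_ne_zero hjfi.index_ne_zero) h8
          omega
      have h8 : j.range.map θ = ⊤ := Subgroup.index_eq_one.1 h7
      intro v
      have h9 : v ∈ j.range.map θ := by rw [h8]; exact Subgroup.mem_top _
      obtain ⟨x, ⟨γ, rfl⟩, hx⟩ := h9
      exact ⟨γ, hx⟩
    obtain ⟨g, hg⟩ := (h _).1 ⟨θ.comp j, hsurj⟩
    have h10 := prod_rank_le hℓ2.two_le g hg
    rwa [Nat.card_sum] at h10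
  have e1 : Nat.card Y₁ = Nat.card Z := by omega
  have e2 : Nat.card Y₂ = Nat.card Z' := by omega
  obtain ⟨ε₁⟩ : Nonempty (Y₁ ≃ Z) := Fintype.card_eq.1 (by
    rw [← Nat.card_eq_fintype_card, ← Nat.card_eq_fintype_card]; exact e1)
  obtain ⟨ε₂⟩ : Nonempty (Y₂ ≃ Z') := Fintype.card_eq.1 (by
    rw [← Nat.card_eq_fintype_card, ← Nat.card_eq_fintype_card]; exact e2)
  let E₁ : FreeGroup Y₁ ≃* FreeGroup Z := FreeGroup.freeGroupCongr ε₁
  let E₂ : FreeGroup Y₂ ≃* FreeGroup Z' := FreeGroup.freeGroupCongr ε₂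
  -- the decomposition
  have n1 : (q.ker.map p).Normal := Subgroup.Normal.map inferInstance p hp
  have n2 : (p.ker.map q).Normal := Subgroup.Normal.map inferInstance q hq
  obtain ⟨r, hr, haltr⟩ := halt ((q.ker.map p).index + (p.ker.map q).index)
  obtain ⟨Φ, fA, fB, hΦ, hA, hB, hpA, hqB⟩ := hfac r haltr
  have kA : fA.ker ≤ q.ker.map p := by
    rw [ker_eq_U inferInstance E₁ r fA hA]
    intro x hx
    have h3 : QuotientGroup.mk' (q.ker.map p) x = 1 :=
      U_finite (by rw [← Subgroup.index_eq_card]; omega) _ hx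
    exact (QuotientGroup.eq_one_iff _).1 h3
  have kB : fB.ker ≤ p.ker.map q := by
    rw [ker_eq_U inferInstance E₂ r fB hB]
    intro x hx
    have h3 : QuotientGroup.mk' (p.ker.map q) x = 1 :=
      U_finite (by rw [← Subgroup.index_eq_card]; omega) _ hx
    exact (QuotientGroup.eq_one_iff _).1 h3
  have htop : ∀ γ, p γ ∈ q.ker.map p := by
    intro γ
    obtain ⟨γ', hγ'⟩ := hΦ ((Φ γ).1, 1)
    have h3 : q γ' ∈ p.ker.map q := by
      apply kB
      rw [MonoidHom.mem_ker, hqB, hγ']
    obtain ⟨ν, hν, hν2⟩ := h3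
    have h4 : p γ' ∈ q.ker.map p := by
      refine ⟨γ' * ν⁻¹, ?_, ?_⟩
      · show q (γ' * ν⁻¹) = 1
        rw [map_mul, map_inv, hν2, mul_inv_cancel]
      · rw [map_mul, map_inv, show p ν = 1 from hν, inv_one, mul_one]
    have h5 : (p γ')⁻¹ * p γ ∈ q.ker.map p := by
      apply kA
      rw [MonoidHom.mem_ker, map_mul, map_inv, hpA, hpA, hγ', inv_mul_cancel]
    have h6 := mul_mem h4 h5
    rwa [mul_inv_cancel_left] at h6
  have hbij : Function.Bijective j := by
    constructor
    · rw [injective_iff_map_eq_one]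
      intro γ hγ
      exact hinj γ (congrArg Prod.fst hγ) (congrArg Prod.snd hγ)
    · rintro ⟨x, y⟩
      obtain ⟨γ, rfl⟩ := hq y
      obtain ⟨δ, hδ⟩ := hp (x * (p γ)⁻¹)
      obtain ⟨ν, hν, hν2⟩ := htop δ
      refine ⟨ν * γ, ?_⟩
      show (p (ν * γ), q (ν * γ)) = (x, q γ)
      rw [map_mul, map_mul, show q ν = 1 from hν, one_mul, hν2, hδ, inv_mul_cancel_right]
  exact ⟨(MulEquiv.ofBijective j hbij).trans (MulEquiv.prodCongr E₁ E₂)⟩

end Pool.Agent.H20.PR
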