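import Mathlib
import Pool.Agent.H20.SK.KerFG
import Pool.Agent.H20.SK.FreeCT
import Pool.Agent.H20.PR.Rank
import Pool.Graph.R_seed8.Helper436.SM.RF1

/-!
Finitely presented subgroups of products of free groups with the finite quotients of a product of two
noncommutative free groups.
-/

set_option autoImplicit false

namespace Pool.Agent.H20.PR

open FreeGroup (of)
open scoped commutatorElement
open Pool.Agent.H20.SK

/-- the group embeds in a product of `k` free groups -/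
def EmbF (Γ : Type) [Group Γ] (k : ℕ) : Prop :=
  ∃ (X : Fin k → Type) (e : Γ →* (∀ i, FreeGroup (X i))), Function.Injective e

theorem exists_min {Γ : Type} [Group Γ] (h : ∃ k, EmbF Γ k) :
    ∃ (k : ℕ) (X : Fin k → Type) (e : Γ →* (∀ i, FreeGroup (X i))), Function.Injective e ∧
      ∀ i : Fin k, ∃ c : Γ, c ≠ 1 ∧ ∀ j, j ≠ i → e c j = 1 := by
  classical
  have hk := Nat.find_spec h
  have hmin := fun m => Nat.find_min h (m := m)
  revert hk hmin
  generalize Nat.find h = k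
  intro hk hmin
  obtain ⟨X, e, he⟩ := hk
  refine ⟨k, X, e, he, fun i => ?_⟩
  rcases k with _ | k
  · exact i.elim0
  by_contra hcon
  push Not at hcon
  apply hmin k (Nat.lt_succ_self k)
  refine ⟨fun j => X (i.succAbove j), MonoidHom.pi fun j => (Pi.evalMonoidHom _ (i.succAbove j)).comp e,
    ?_⟩
  rw [injective_iff_map_eq_one]
  intro c hc
  by_contra hne
  obtain ⟨j, hj, hj2⟩ := hcon c hne
  obtain ⟨l, rfl⟩ := Fin.exists_succAbove_eq hj
  exact hj2 (congrFun hc l)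

theorem free_rf' {X : Type} {w : FreeGroup X} (hw : w ≠ 1) : ∃ r, w ∉ U r (FreeGroup X) := by
  classical
  obtain ⟨m, e, he⟩ := Pool.Agent.Helper436.SM.free_rf w hw
  exact ⟨m, fun h => he (mem_U.1 h _)⟩

theorem rf {Γ : Type} [Group Γ] {k : ℕ} {X : Fin k → Type} {e : Γ →* (∀ i, FreeGroup (X i))}
    (he : Function.Injective e) {c : Γ} (hc : c ≠ 1) : ∃ r, c ∉ U r Γ := by
  have h1 : e c ≠ 1 := fun h => hc (he (h.trans (map_one e).symm))
  obtain ⟨i, hi⟩ := Function.ne_iff.1 h1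
  obtain ⟨r, hr⟩ := free_rf' hi
  exact ⟨r, fun h => hr (U_map ((Pi.evalMonoidHom _ i).comp e) h)⟩

theorem cc {Γ : Type} [Group Γ] {k : ℕ} {X : Fin k → Type} {e : Γ →* (∀ i, FreeGroup (X i))}
    (he : Function.Injective e) {i j : Fin k} (hij : i ≠ j) {c c' : Γ}
    (hc : ∀ l, l ≠ i → e c l = 1) (hc' : ∀ l, l ≠ j → e c' l = 1) (γ : Γ) : ⁅⁅c, γ⁆, c'⁆ = 1 := by
  apply he
  rw [map_one, map_commutatorElement, map_commutatorElement]
  funext l
  show ⁅⁅e c l, e γ l⁆, e c' l⁆ = 1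
  by_cases hl : l = i
  · rw [hc' l (by rw [hl]; exact hij), commutatorElement_one_right]
  · rw [hc l hl, commutatorElement_one_left, commutatorElement_one_left]

theorem exists_onto {Γ X : Type} [Group Γ] (f : Γ →* FreeGroup X) :
    ∃ (Y : Type) (p : Γ →* FreeGroup Y), Function.Surjective p ∧ ∀ γ, p γ = 1 ↔ f γ = 1 := by
  let E := IsFreeGroup.toFreeGroup f.range
  refine ⟨_, E.toMonoidHom.comp f.rangeRestrict, ?_, ?_⟩
  · exact E.surjective.comp f.rangeRestrict_surjective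
  · intro γ
    constructor
    · intro h
      have h1 : f.rangeRestrict γ = 1 := E.injective (h.trans (map_one E).symm)
      exact congrArg Subtype.val h1
    · intro h
      have h1 : f.rangeRestrict γ = 1 := Subtype.ext h
      show E (f.rangeRestrict γ) = 1
      rw [h1, map_one]

theorem SameQ.equiv {A B C : Type} [Group A] [Group B] [Group C] (h : SameQ A B) (e : A ≃* C) :
    SameQ C B := by
  intro Q _ _
  rw [← h Q]
  constructor
  · rintro ⟨f, hf⟩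
    exact ⟨f.comp e.toMonoidHom, hf.comp e.surjective⟩
  · rintro ⟨f, hf⟩
    exact ⟨f.comp e.symm.toMonoidHom, hf.comp e.symm.surjective⟩

theorem map_fg {A B : Type} [Group A] [Group B] (f : A →* B) {K : Subgroup A} (hK : K.FG) :
    (K.map f).FG := by
  obtain ⟨T, hT, hf⟩ := (Subgroup.fg_iff K).1 hK
  refine (Subgroup.fg_iff _).2 ⟨f '' T, ?_, hf.image f⟩
  rw [← MonoidHom.map_closure, hT]

theorem fp_fg {Γ : Type} [Group Γ] (hfp : Group.IsFinitelyPresented Γ) : Group.FG Γ := by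
  obtain ⟨n, ρ, hρ, _⟩ := hfp.out
  exact Group.fg_of_surjective hρ

/-- groups embedded in one free group -/
theorem no_one {Γ Z Z' Y : Type} [Group Γ] [Finite Z] [Finite Z']
    (h : SameQ Γ (FreeGroup Z × FreeGroup Z')) (e : Γ ≃* FreeGroup Y) (hΓ : Group.FG Γ)
    {s t : Y} (hst : s ≠ t) {c c' : FreeGroup Z × FreeGroup Z'} (hc : c ≠ 1) (hc' : c' ≠ 1)
    (hcc : ∀ γ : FreeGroup Z × FreeGroup Z', ⁅⁅c, γ⁆, c'⁆ = 1) : False := by
  have hY : Group.FG (FreeGroup Y) := Group.fg_of_surjective (f := e.toMonoidHom) e.surjective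
  have hE : Group.FG (FreeGroup Empty) := inferInstance
  let E : Γ ≃* FreeGroup Y × FreeGroup Empty := e.trans
    { toFun := fun x => (x, 1)
      invFun := fun x => x.1
      left_inv := fun x => rfl
      right_inv := fun x => Prod.ext rfl (Subsingleton.elim _ _)
      map_mul' := fun x y => Prod.ext rfl (Subsingleton.elim _ _) }
  have h2 : SameQ (FreeGroup Z × FreeGroup Z') (FreeGroup Y × FreeGroup Empty) :=
    (h.equiv E).symm
  have rfG : ∀ c : FreeGroup Z × FreeGroup Z', c ≠ 1 →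
      ∃ r, c ∉ U r (FreeGroup Z × FreeGroup Z') := by
    intro c hc
    by_cases h1 : c.1 = 1
    · have h3 : c.2 ≠ 1 := fun h3 => hc (Prod.ext h1 h3)
      obtain ⟨r, hr⟩ := free_rf' h3
      exact ⟨r, fun h => hr (U_map (MonoidHom.snd _ _) h)⟩
    · obtain ⟨r, hr⟩ := free_rf' h1
      exact ⟨r, fun h => hr (U_map (MonoidHom.fst _ _) h)⟩
  obtain ⟨r₁, hr₁⟩ := rfG c hc
  obtain ⟨r₂, hr₂⟩ := rfG c' hc'
  obtain ⟨Φ, -, hk, h3, -⟩ := levelD hY hE inferInstance h2 (r₁ + r₂)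
  have h4 : ∀ x : FreeGroup Empty ⧸ U (r₁ + r₂) (FreeGroup Empty), x = 1 := by
    intro x
    obtain ⟨y, rfl⟩ := QuotientGroup.mk'_surjective _ x
    rw [Subsingleton.elim y 1, map_one]
  rcases h3 ⟨s, t, hst⟩ c c' hcc with h5 | h5
  · exact hr₁ (U_mono (by omega) (hk (show Φ c = 1 from Prod.ext h5 (h4 _))))
  · exact hr₂ (U_mono (by omega) (hk (show Φ c' = 1 from Prod.ext h5 (h4 _))))

theorem pig {a0 a1 a2 b0 b1 b2 : Prop} (n0 : ¬ (a0 ∧ b0)) (n1 : ¬ (a1 ∧ b1)) (n2 : ¬ (a2 ∧ b2))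
    (a01 : a0 ∨ a1) (a02 : a0 ∨ a2) (a12 : a1 ∨ a2) (b01 : b0 ∨ b1) (b02 : b0 ∨ b2)
    (b12 : b1 ∨ b2) : False := by
  by_cases h0 : a0 <;> by_cases h1 : a1 <;> by_cases h2 : a2 <;> simp_all

theorem main22 {Γ Z Z' : Type} [Group Γ] [Finite Z] [Finite Z'] (hfp : Group.IsFinitelyPresented Γ)
    (hE : ∃ k, EmbF Γ k) (h : SameQ Γ (FreeGroup Z × FreeGroup Z'))
    (hZ : ∃ s t : Z, s ≠ t) (hZ' : ∃ s t : Z', s ≠ t) :
    Nonempty (Γ ≃* FreeGroup Z × FreeGroup Z') := by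
  classical
  have hΓ := fp_fg hfp
  have fgZ : Group.FG (FreeGroup Z) := inferInstance
  have fgZ' : Group.FG (FreeGroup Z') := inferInstance
  obtain ⟨k, X, e, he, hmin⟩ := exists_min hE
  -- elements which commute with the commutators
  have noC : ∀ c : Γ, (∀ γ : Γ, ⁅⁅c, γ⁆, c⁆ = 1) → c = 1 := by
    intro c hc
    by_contra hne
    obtain ⟨r, hr⟩ := rf he hne
    obtain ⟨Φ, -, hk, h1, h2⟩ := levelD fgZ fgZ' hΓ h r
    apply hr
    apply hk
    show Φ c = 1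
    exact Prod.ext (by rcases h1 hZ c c hc with h | h <;> exact h)
      (by rcases h2 hZ' c c hc with h | h <;> exact h)
  -- at most two factors
  have hk2 : k ≤ 2 := by
    by_contra hk3
    obtain ⟨c₀, hc₀, hc₀'⟩ := hmin ⟨0, by omega⟩
    obtain ⟨c₁, hc₁, hc₁'⟩ := hmin ⟨1, by omega⟩
    obtain ⟨c₂, hc₂, hc₂'⟩ := hmin ⟨2, by omega⟩
    obtain ⟨r₀, hr₀⟩ := rf he hc₀
    obtain ⟨r₁, hr₁⟩ := rf he hc₁
    obtain ⟨r₂, hr₂⟩ := rf he hc₂
    obtain ⟨Φ, -, hk, h1, h2⟩ := levelD fgZ fgZ' hΓ h (r₀ + r₁ + r₂)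
    have n0 : ¬ ((Φ c₀).1 = 1 ∧ (Φ c₀).2 = 1) := fun h =>
      hr₀ (U_mono (by omega) (hk (show Φ c₀ = 1 from Prod.ext h.1 h.2)))
    have n1 : ¬ ((Φ c₁).1 = 1 ∧ (Φ c₁).2 = 1) := fun h =>
      hr₁ (U_mono (by omega) (hk (show Φ c₁ = 1 from Prod.ext h.1 h.2)))
    have n2 : ¬ ((Φ c₂).1 = 1 ∧ (Φ c₂).2 = 1) := fun h =>
      hr₂ (U_mono (by omega) (hk (show Φ c₂ = 1 from Prod.ext h.1 h.2)))
    have d01 : (⟨0, by omega⟩ : Fin k) ≠ ⟨1, by omega⟩ := by simp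
    have d02 : (⟨0, by omega⟩ : Fin k) ≠ ⟨2, by omega⟩ := by simp
    have d12 : (⟨1, by omega⟩ : Fin k) ≠ ⟨2, by omega⟩ := by simp
    have a01 := h1 hZ c₀ c₁ (cc he d01 hc₀' hc₁')
    have a02 := h1 hZ c₀ c₂ (cc he d02 hc₀' hc₂')
    have a12 := h1 hZ c₁ c₂ (cc he d12 hc₁' hc₂')
    have b01 := h2 hZ' c₀ c₁ (cc he d01 hc₀' hc₁')
    have b02 := h2 hZ' c₀ c₂ (cc he d02 hc₀' hc₂')
    have b12 := h2 hZ' c₁ c₂ (cc he d12 hc₁' hc₂')
    exact pig n0 n1 n2 a01 a02 a12 b01 b02 b12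
  obtain ⟨s, t, hst⟩ := hZ
  obtain ⟨s', t', hst'⟩ := hZ'
  -- one factor is not enough
  have hone : ∀ (X : Type) (f : Γ →* FreeGroup X), (∀ γ, f γ = 1 → γ = 1) → False := by
    intro X f hf
    obtain ⟨Y, p, hp, hpf⟩ := exists_onto f
    let E : Γ ≃* FreeGroup Y := MulEquiv.ofBijective p
      ⟨(injective_iff_map_eq_one p).2 fun γ hγ => hf γ ((hpf γ).1 hγ), hp⟩
    by_cases hY : ∃ a b : Y, a ≠ b
    · obtain ⟨a, b, hab⟩ := hY
      have hne1 : ((of s, 1) : FreeGroup Z × FreeGroup Z') ≠ 1 := fun h =>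
        FreeGroup.of_ne_one s (congrArg Prod.fst h)
      have hne2 : ((1, of s') : FreeGroup Z × FreeGroup Z') ≠ 1 := fun h =>
        FreeGroup.of_ne_one s' (congrArg Prod.snd h)
      refine no_one h E hΓ hab hne1 hne2 (fun γ => ?_)
      refine Prod.ext ?_ ?_
      · show ⁅⁅of s, γ.1⁆, (1 : FreeGroup Z)⁆ = 1
        rw [commutatorElement_one_right]
      · show ⁅⁅(1 : FreeGroup Z'), γ.2⁆, of s'⁆ = 1
        rw [commutatorElement_one_left, commutatorElement_one_left]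
    · push Not at hY
      have : Subsingleton Y := ⟨hY⟩
      obtain ⟨ρ, hρ⟩ := free_cyc (X := Y)
      have hcomm : ∀ x y : Γ, x * y = y * x := by
        intro x y
        apply E.injective
        rw [map_mul, map_mul]
        obtain ⟨a, ha⟩ := hρ (E x)
        obtain ⟨b, hb⟩ := hρ (E y)
        rw [ha, hb, ← zpow_add, ← zpow_add, add_comm]
      have htriv : ∀ x : Γ, x = 1 := by
        intro x
        apply noC
        intro γ
        rw [commutatorElement_eq_one_iff_mul_comm]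
        exact hcomm _ _
      obtain ⟨r, hr⟩ := free_rf' (FreeGroup.of_ne_one s)
      obtain ⟨Φ, hs, -, -, -⟩ := levelD fgZ fgZ' hΓ h r
      obtain ⟨γ, hγ⟩ := hs (QuotientGroup.mk' _ (of s), 1)
      rw [htriv γ, map_one] at hγ
      exact hr ((QuotientGroup.eq_one_iff _).1 (congrArg Prod.fst hγ).symm)
  have hk : k = 2 := by
    rcases k with _ | _ | _ | k
    · exfalso
      refine hone Empty 1 (fun γ _ => ?_)
      apply he
      funext i
      exact i.elim0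
    · exfalso
      refine hone (X 0) ((Pi.evalMonoidHom _ 0).comp e) (fun γ hγ => ?_)
      apply he
      rw [map_one]
      funext i
      fin_cases i
      exact hγ
    · rfl
    · omega
  subst hk
  obtain ⟨Y₁, p, hp, hpe⟩ := exists_onto
    ((Pi.evalMonoidHom (fun i => FreeGroup (X i)) (0 : Fin 2)).comp e)
  obtain ⟨Y₂, q, hq, hqe⟩ := exists_onto
    ((Pi.evalMonoidHom (fun i => FreeGroup (X i)) (1 : Fin 2)).comp e)
  have hinj : ∀ γ, p γ = 1 → q γ = 1 → γ = 1 := by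
    intro γ h1 h2
    apply he
    rw [map_one]
    funext i
    fin_cases i
    · exact (hpe γ).1 h1
    · exact (hqe γ).1 h2
  obtain ⟨c₁, hc₁, hc₁'⟩ := hmin 0
  obtain ⟨c₂, hc₂, hc₂'⟩ := hmin 1
  have q1 : q c₁ = 1 := (hqe c₁).2 (hc₁' 1 (by simp))
  have p2 : p c₂ = 1 := (hpe c₂).2 (hc₂' 0 (by simp))
  have p1 : p c₁ ≠ 1 := fun h => hc₁ (hinj _ h q1)
  have q2 : q c₂ ≠ 1 := fun h => hc₂ (hinj _ p2 h)
  have hfY1 : Group.FG (FreeGroup Y₁) := Group.fg_of_surjective hp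
  have hfY2 : Group.FG (FreeGroup Y₂) := Group.fg_of_surjective hq
  have hY1 := free_fg_finite hfY1
  have hY2 := free_fg_finite hfY2
  -- commuting kernels
  have hcomm : ∀ a b, p a = 1 → q b = 1 → a * b = b * a := by
    intro a b ha hb
    have h1 : ⁅a, b⁆ = 1 := by
      apply hinj
      · rw [map_commutatorElement, ha, commutatorElement_one_left]
      · rw [map_commutatorElement, hb, commutatorElement_one_right]
    exact commutatorElement_eq_one_iff_mul_comm.1 h1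
  have kp : p.ker.FG := ker_fg hfp p hp c₁ (fun a ha => (hcomm a c₁ ha q1).symm) p1
  have kq : q.ker.FG := ker_fg hfp q hq c₂ (fun a ha => hcomm c₂ a p2 ha) q2
  have nq : (p.ker.map q).Normal := Subgroup.Normal.map inferInstance q hq
  have np : (q.ker.map p).Normal := Subgroup.Normal.map inferInstance p hp
  have f2 : (p.ker.map q).FiniteIndex := by
    apply fg_normal_free _ (map_fg q kp)
    intro hbot
    have h3 : q c₂ ∈ p.ker.map q := ⟨c₂, p2, rfl⟩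
    rw [hbot] at h3
    exact q2 h3
  have f1 : (q.ker.map p).FiniteIndex := by
    apply fg_normal_free _ (map_fg p kq)
    intro hbot
    have h3 : p c₁ ∈ q.ker.map p := ⟨c₁, q1, rfl⟩
    rw [hbot] at h3
    exact p1 h3
  -- the levels
  obtain ⟨r₁, hr₁⟩ := rf he hc₁
  obtain ⟨r₂, hr₂⟩ := rf he hc₂
  have hlev : ∀ r, r₁ + r₂ ≤ r → Alt Z Z' p q r ∨ Alt Z Z' q p r := by
    intro r hr
    obtain ⟨Φ, hs, hk, h1, h2⟩ := levelD fgZ fgZ' hΓ h r
    have n1 : ¬ ((Φ c₁).1 = 1 ∧ (Φ c₁).2 = 1) := fun h =>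
      hr₁ (U_mono (by omega) (hk (show Φ c₁ = 1 from Prod.ext h.1 h.2)))
    have n2 : ¬ ((Φ c₂).1 = 1 ∧ (Φ c₂).2 = 1) := fun h =>
      hr₂ (U_mono (by omega) (hk (show Φ c₂ = 1 from Prod.ext h.1 h.2)))
    have C : ∀ a b : Γ, q a = 1 → p b = 1 → ∀ γ : Γ, ⁅⁅a, γ⁆, b⁆ = 1 := by
      intro a b ha hb γ
      rw [commutatorElement_eq_one_iff_mul_comm]
      refine (hcomm b ⁅a, γ⁆ hb ?_).symm
      rw [map_commutatorElement, ha, commutatorElement_one_left]
    by_cases g1 : (Φ c₁).1 = 1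
    · have g2 : (Φ c₁).2 ≠ 1 := fun g2 => n1 ⟨g1, g2⟩
      right
      have a1 : ∀ γ, p γ = 1 → (Φ γ).2 = 1 := fun γ hγ =>
        (h2 ⟨s', t', hst'⟩ c₁ γ (C c₁ γ q1 hγ)).resolve_left g2
      have a2 : (Φ c₂).1 ≠ 1 := fun g3 => n2 ⟨g3, a1 c₂ p2⟩
      exact ⟨Φ, hs, fun γ hγ => (h1 ⟨s, t, hst⟩ γ c₂ (C γ c₂ hγ p2)).resolve_right a2, a1⟩
    · left
      have a1 : ∀ γ, p γ = 1 → (Φ γ).1 = 1 := fun γ hγ =>
        (h1 ⟨s, t, hst⟩ c₁ γ (C c₁ γ q1 hγ)).resolve_left g1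
      have a2 : (Φ c₂).2 ≠ 1 := fun g3 => n2 ⟨a1 c₂ p2, g3⟩
      exact ⟨Φ, hs, a1, fun γ hγ => (h2 ⟨s', t', hst'⟩ γ c₂ (C γ c₂ hγ p2)).resolve_right a2⟩
  by_cases hinf : ∀ R : ℕ, ∃ r, R ≤ r ∧ Alt Z Z' p q r
  · exact lemE h p q hp hq hinj f1 f2 hinf
  · push Not at hinf
    obtain ⟨R, hR⟩ := hinf
    refine lemE h q p hq hp (fun γ a b => hinj γ b a) f2 f1 (fun R' => ?_)
    refine ⟨r₁ + r₂ + R + R', by omega, ?_⟩
    exact (hlev _ (by omega)).resolve_left (hR _ (by omega))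

end Pool.Agent.H20.PR
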