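import Mathlib
import Pool.Agent.H20.PR.Main

/-!
The case in which one of the two free groups is commutative.
-/

set_option autoImplicit false

namespace Pool.Agent.H20.PR

open FreeGroup (of)
open scoped commutatorElement
open Pool.Agent.H20.SK

theorem tf_abel {K : Type} [Group K] (hfg : Group.FG K) (hc : ∀ x y : K, x * y = y * x)
    (htf : ∀ (x : K) (n : ℕ), n ≠ 0 → x ^ n = 1 → x = 1) :
    ∃ (ι : Type) (_ : Finite ι), Nonempty (K ≃* Multiplicative (ι → ℤ)) := by
  let _ : CommGroup K := { ‹Group K› with mul_comm := hc }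
  have h1 : IsMulTorsionFree K := by
    constructor
    intro n hn x y hxy
    have h2 : (x * y⁻¹) ^ n = 1 := by
      have h3 : x ^ n = y ^ n := hxy
      rw [mul_pow, h3, inv_pow, mul_inv_cancel]
    exact mul_inv_eq_one.1 (htf _ n hn h2)
  have h2 : Module.Finite ℤ (Additive K) :=
    Module.Finite.iff_addGroup_fg.2 (GroupFG.iff_add_fg.1 hfg)
  have h3 : IsAddTorsionFree (Additive K) := inferInstance
  have h4 : Module.IsTorsionFree ℤ (Additive K) := inferInstance
  have h5 : Module.Free ℤ (Additive K) := inferInstance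
  let b := Module.Free.chooseBasis ℤ (Additive K)
  refine ⟨Fin (Fintype.card (Module.Free.ChooseBasisIndex ℤ (Additive K))), inferInstance, ⟨?_⟩⟩
  let e := (b.reindex (Fintype.equivFin _)).equivFun
  exact
    { toFun := fun x => Multiplicative.ofAdd (e (Additive.ofMul x))
      invFun := fun v => Additive.toMul (e.symm (Multiplicative.toAdd v))
      left_inv := fun x => e.symm_apply_apply (Additive.ofMul x)
      right_inv := fun v => e.apply_symm_apply (Multiplicative.toAdd v)
      map_mul' := fun x y => map_add e (Additive.ofMul x) (Additive.ofMul y) }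

theorem z_free {Z ι : Type} [Finite Z] [Finite ι] [Subsingleton Z] (h : Nat.card ι = Nat.card Z) :
    Nonempty (Multiplicative (ι → ℤ) ≃* FreeGroup Z) := by
  classical
  rcases isEmpty_or_nonempty Z with hZ | hZ
  · have h1 : Nat.card ι = 0 := by rw [h]; exact Nat.card_of_isEmpty
    have h2 : IsEmpty ι := Finite.card_eq_zero_iff.1 h1
    exact ⟨{ toFun := fun _ => 1
             invFun := fun _ => 1
             left_inv := fun x => Subsingleton.elim _ _
             right_inv := fun x => Subsingleton.elim _ _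
             map_mul' := fun _ _ => Subsingleton.elim _ _ }⟩
  · obtain ⟨z⟩ := hZ
    let u : Unique Z := ⟨⟨z⟩, fun x => Subsingleton.elim _ _⟩
    have h1 : Nat.card ι = 1 := by rw [h]; exact Nat.card_unique
    obtain ⟨h2, ⟨i⟩⟩ := Nat.card_eq_one_iff_unique.1 h1
    let u2 : Unique ι := ⟨⟨i⟩, fun x => Subsingleton.elim _ _⟩
    exact ⟨(AddEquiv.toMultiplicative (LinearEquiv.funUnique ι ℤ ℤ).toAddEquiv).trans
      (FreeGroup.mulEquivIntOfUnique (α := Z)).symm⟩

theorem ab_comm {Y : Type} [Subsingleton Y] (x y : FreeGroup Y) : x * y = y * x := by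
  obtain ⟨ρ, hρ⟩ := free_cyc (X := Y)
  obtain ⟨a, ha⟩ := hρ x
  obtain ⟨b, hb⟩ := hρ y
  rw [ha, hb, ← zpow_add, ← zpow_add, add_comm]

theorem emb_tf {Γ : Type} [Group Γ] {k : ℕ} {X : Fin k → Type} {e : Γ →* (∀ i, FreeGroup (X i))}
    (he : Function.Injective e) (x : Γ) (n : ℕ) (hn : n ≠ 0) (hx : x ^ n = 1) : x = 1 := by
  by_contra hne
  have h1 : e x ≠ 1 := fun h => hne (he (h.trans (map_one e).symm))
  obtain ⟨i, hi⟩ := Function.ne_iff.1 h1
  have h2 : (e x i) ^ (n : ℤ) = 1 := by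
    rw [zpow_natCast]
    have h3 := congrFun (congrArg e hx) i
    rw [map_pow, map_one] at h3
    exact h3
  have h3 := free_zpow hi h2
  exact hn (by exact_mod_cast h3)

/-- elementary abelian quotients of `ℤ^ι × F_Y` -/
theorem zf_surj {ι Y : Type} [Finite ι] [Finite Y] :
    ∃ f : Multiplicative (ι → ℤ) × FreeGroup Y →* Multiplicative ((ι ⊕ Y) → ZMod 2),
      Function.Surjective f := by
  obtain ⟨g, hg⟩ := ab_surj Y 2
  let f : Multiplicative (ι → ℤ) × FreeGroup Y →* Multiplicative ((ι ⊕ Y) → ZMod 2) :=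
    { toFun := fun x => Multiplicative.ofAdd (Sum.elim
        (fun i => ((Multiplicative.toAdd x.1 i : ℤ) : ZMod 2)) (Multiplicative.toAdd (g x.2)))
      map_one' := by
        show Multiplicative.ofAdd (Sum.elim (fun i => ((0 : ℤ) : ZMod 2))
          (Multiplicative.toAdd (g 1))) = 1
        rw [map_one g]
        apply Multiplicative.toAdd.injective
        funext z
        rcases z with z | z
        · exact Int.cast_zero
        · rfl
      map_mul' := by
        intro x y
        show Multiplicative.ofAdd (Sum.elim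
          (fun i => (((Multiplicative.toAdd x.1 i : ℤ) + (Multiplicative.toAdd y.1 i : ℤ) : ℤ) : ZMod 2))
          (Multiplicative.toAdd (g (x.2 * y.2)))) = _
        rw [map_mul g]
        apply Multiplicative.toAdd.injective
        funext z
        rcases z with z | z
        · exact Int.cast_add _ _
        · rfl }
  refine ⟨f, fun v => ?_⟩
  obtain ⟨b, hb⟩ := hg (Multiplicative.ofAdd fun z => Multiplicative.toAdd v (Sum.inr z))
  choose c hc using fun i : ι => ZMod.intCast_surjective (Multiplicative.toAdd v (Sum.inl i))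
  refine ⟨(Multiplicative.ofAdd c, b), ?_⟩
  show Multiplicative.ofAdd (Sum.elim (fun i => ((c i : ℤ) : ZMod 2))
    (Multiplicative.toAdd (g b))) = v
  rw [hb]
  apply Multiplicative.toAdd.injective
  funext z
  rcases z with z | z
  · exact hc z
  · rfl

theorem main21 {Γ Z Z' : Type} [Group Γ] [Finite Z] [Finite Z'] [Subsingleton Z']
    (hΓ : Group.FG Γ) (hE : ∃ k, EmbF Γ k) (h : SameQ Γ (FreeGroup Z × FreeGroup Z'))
    (hZ : ∃ s t : Z, s ≠ t) : Nonempty (Γ ≃* FreeGroup Z × FreeGroup Z') := by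
  classical
  cases nonempty_fintype Z
  cases nonempty_fintype Z'
  have fgZ : Group.FG (FreeGroup Z) := inferInstance
  have fgZ' : Group.FG (FreeGroup Z') := inferInstance
  obtain ⟨k, X, e, he, hmin⟩ := exists_min hE
  have habB : ∀ (r : ℕ) (x y : FreeGroup Z' ⧸ U r (FreeGroup Z')), ⁅x, y⁆ = 1 := by
    intro r x y
    obtain ⟨a, rfl⟩ := QuotientGroup.mk'_surjective _ x
    obtain ⟨b, rfl⟩ := QuotientGroup.mk'_surjective _ y
    rw [← map_commutatorElement, commutatorElement_eq_one_iff_mul_comm.2 (ab_comm a b), map_one]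
  let NA : Fin k → Prop := fun i => ∃ c γ : Γ, (∀ l, l ≠ i → e c l = 1) ∧ ⁅c, γ⁆ ≠ 1
  have hat : ∀ i j, i ≠ j → NA i → NA j → False := by
    rintro i j hij ⟨c, γ, hc, hcγ⟩ ⟨c', γ', hc', hcγ'⟩
    have f1 : ∀ l, l ≠ i → e ⁅c, γ⁆ l = 1 := by
      intro l hl
      rw [map_commutatorElement]
      show ⁅e c l, e γ l⁆ = 1
      rw [hc l hl, commutatorElement_one_left]
    have f2 : ∀ l, l ≠ j → e ⁅c', γ'⁆ l = 1 := by
      intro l hl
      rw [map_commutatorElement]
      show ⁅e c' l, e γ' l⁆ = 1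
      rw [hc' l hl, commutatorElement_one_left]
    obtain ⟨r₁, hr₁⟩ := rf he hcγ
    obtain ⟨r₂, hr₂⟩ := rf he hcγ'
    obtain ⟨Φ, -, hk, h1, -⟩ := levelD fgZ fgZ' hΓ h (r₁ + r₂)
    have g1 : ∀ a b : Γ, (Φ ⁅a, b⁆).2 = 1 := by
      intro a b
      rw [map_commutatorElement]
      exact habB _ (Φ a).2 (Φ b).2
    rcases h1 hZ _ _ (cc he hij f1 f2) with h5 | h5
    · exact hr₁ (U_mono (by omega) (hk (show Φ ⁅c, γ⁆ = 1 from Prod.ext h5 (g1 _ _))))
    · exact hr₂ (U_mono (by omega) (hk (show Φ ⁅c', γ'⁆ = 1 from Prod.ext h5 (g1 _ _))))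
  have hab : ∀ i, ¬ NA i → ∀ γ γ' : Γ, e γ i * e γ' i = e γ' i * e γ i := by
    intro i hi γ γ'
    obtain ⟨c, hc, hc'⟩ := hmin i
    have h1 : ∀ γ, e c i * e γ i = e γ i * e c i := by
      intro γ
      have h2 : ⁅c, γ⁆ = 1 := by
        by_contra hne
        exact hi ⟨c, γ, hc', hne⟩
      have h3 := commutatorElement_eq_one_iff_mul_comm.1 h2
      have h4 := congrFun (congrArg e h3) i
      rw [map_mul, map_mul] at h4
      exact h4
    have h2 : e c i ≠ 1 := by
      intro h2
      apply hc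
      apply he
      rw [map_one]
      funext l
      by_cases hl : l = i
      · rw [hl]; exact h2
      · exact hc' l hl
    exact free_ct (e γ i) (e c i) (e γ' i) h2 (h1 γ).symm (h1 γ')
  obtain ⟨s, t, hst⟩ := hZ
  have hst' : ⁅of s, of t⁆ ≠ (1 : FreeGroup Z) := by
    intro h1
    exact free_noncomm hst (commutatorElement_eq_one_iff_mul_comm.1 h1)
  obtain ⟨r₀, hr₀⟩ := free_rf' hst'
  have hex : ∃ i, NA i := by
    by_contra hno
    push Not at hno
    have hcomm : ∀ x y : Γ, ⁅x, y⁆ = 1 := by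
      intro x y
      rw [commutatorElement_eq_one_iff_mul_comm]
      apply he
      rw [map_mul, map_mul]
      funext i
      exact hab i (hno i) x y
    obtain ⟨Φ, hs, -, -, -⟩ := levelD fgZ fgZ' hΓ h r₀
    obtain ⟨γ, hγ⟩ := hs (QuotientGroup.mk' _ (of s), 1)
    obtain ⟨γ', hγ'⟩ := hs (QuotientGroup.mk' _ (of t), 1)
    have h1 : Φ ⁅γ, γ'⁆ = 1 := by rw [hcomm, map_one]
    rw [map_commutatorElement, hγ, hγ'] at h1
    have h2 := congrArg Prod.fst h1
    have h3 : ⁅(QuotientGroup.mk' (U r₀ (FreeGroup Z)) (of s)),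
      (QuotientGroup.mk' (U r₀ (FreeGroup Z)) (of t))⁆ = 1 := h2
    rw [← map_commutatorElement] at h3
    exact hr₀ ((QuotientGroup.eq_one_iff _).1 h3)
  obtain ⟨i₀, hi₀⟩ := hex
  obtain ⟨Y, p, hp, hpe⟩ := exists_onto
    ((Pi.evalMonoidHom (fun i => FreeGroup (X i)) i₀).comp e)
  have hfY : Group.FG (FreeGroup Y) := Group.fg_of_surjective hp
  have hYf := free_fg_finite hfY
  have hcen : ∀ a, p a = 1 → ∀ γ, a * γ = γ * a := by
    intro a ha γ
    apply he
    rw [map_mul, map_mul]
    funext l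
    show e a l * e γ l = e γ l * e a l
    by_cases hl : l = i₀
    · have h1 : e a i₀ = 1 := (hpe a).1 ha
      rw [hl, h1, one_mul, mul_one]
    · exact hab l (fun hNA => hat l i₀ hl hNA hi₀) a γ
  -- the splitting
  choose σ₀ hσ₀ using hp
  let σ : FreeGroup Y →* Γ := FreeGroup.lift fun y => σ₀ (of y)
  have hσ : ∀ w, p (σ w) = w := by
    intro w
    have h1 : p.comp σ = MonoidHom.id _ := by
      apply FreeGroup.ext_hom
      intro y
      show p (σ (of y)) = of y
      have h2 : σ (of y) = σ₀ (of y) := FreeGroup.lift_apply_of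
      rw [h2, hσ₀]
    exact DFunLike.congr_fun h1 w
  let K : Subgroup Γ := p.ker
  have hKc : ∀ x y : K, x * y = y * x := fun x y => Subtype.ext (hcen x x.2 y)
  let E₁ : Γ ≃* K × FreeGroup Y :=
    { toFun := fun γ => (⟨γ * (σ (p γ))⁻¹, by
        rw [MonoidHom.mem_ker, map_mul, map_inv, hσ, mul_inv_cancel]⟩, p γ)
      invFun := fun x => (x.1 : Γ) * σ x.2
      left_inv := fun γ => by
        show γ * (σ (p γ))⁻¹ * σ (p γ) = γ
        rw [inv_mul_cancel_right]
      right_inv := fun x => by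
        have h1 : p ((x.1 : Γ) * σ x.2) = x.2 := by
          rw [map_mul, hσ, show p (x.1 : Γ) = 1 from x.1.2, one_mul]
        refine Prod.ext (Subtype.ext ?_) h1
        show (x.1 : Γ) * σ x.2 * (σ (p ((x.1 : Γ) * σ x.2)))⁻¹ = x.1
        rw [h1, mul_inv_cancel_right]
      map_mul' := fun γ δ => by
        refine Prod.ext (Subtype.ext ?_) (map_mul p γ δ)
        show γ * δ * (σ (p (γ * δ)))⁻¹ = γ * (σ (p γ))⁻¹ * (δ * (σ (p δ))⁻¹)
        have h1 : p (δ * (σ (p δ))⁻¹) = 1 := by rw [map_mul, map_inv, hσ, mul_inv_cancel]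
        have h2 := hcen _ h1 (σ (p γ))⁻¹
        rw [map_mul, map_mul, mul_inv_rev, mul_assoc γ (σ (p γ))⁻¹, ← h2]
        group }
  have hKfg : Group.FG K :=
    Group.fg_of_surjective (f := (MonoidHom.fst _ _).comp E₁.toMonoidHom)
      (Prod.fst_surjective.comp E₁.surjective)
  obtain ⟨ι, hι, ⟨E₂⟩⟩ := tf_abel hKfg hKc (fun x n hn hx =>
    Subtype.ext (emb_tf he x n hn (congrArg Subtype.val hx)))
  let E : Γ ≃* Multiplicative (ι → ℤ) × FreeGroup Y := E₁.trans (MulEquiv.prodCongr E₂ (MulEquiv.refl _))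
  -- ranks
  have rk1 : Nat.card ι + Nat.card Y ≤ Nat.card Z + Nat.card Z' := by
    obtain ⟨f, hf⟩ := zf_surj (ι := ι) (Y := Y)
    obtain ⟨g, hg⟩ := (h _).1 ⟨f.comp E.toMonoidHom, hf.comp E.surjective⟩
    have h1 := prod_rank_le le_rfl g hg
    rwa [Nat.card_sum] at h1
  have rk2 : Nat.card Z ≤ Nat.card Y := by
    obtain ⟨r, hr⟩ : ∃ r, r = r₀ + Nat.card (Multiplicative (Z → ZMod 2)) := ⟨_, rfl⟩
    obtain ⟨Φ, hs, -, h1, -⟩ := levelD fgZ fgZ' hΓ h r
    have hkill : ∀ a, p a = 1 → (Φ a).1 = 1 := by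
      intro a ha
      obtain ⟨γ, hγ⟩ := hs (QuotientGroup.mk' _ ⁅of s, of t⁆, 1)
      have hγ1 : (Φ γ).1 ≠ 1 := by
        rw [hγ]
        intro h2
        exact hr₀ (U_mono (by omega) ((QuotientGroup.eq_one_iff _).1 h2))
      refine (h1 ⟨s, t, hst⟩ a γ (fun δ => ?_)).resolve_right hγ1
      rw [commutatorElement_eq_one_iff_mul_comm.2 (hcen a ha δ), commutatorElement_one_left]
    obtain ⟨fA, hfA⟩ := lift_level p (fun w => ⟨σ₀ w, hσ₀ w⟩) ((MonoidHom.fst _ _).comp Φ)
      (fun x hx => hkill x hx)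
    have hfAs : Function.Surjective fA := by
      intro y
      obtain ⟨γ, hγ⟩ := hs (y, 1)
      exact ⟨p γ, by rw [hfA]; show (Φ γ).1 = y; rw [hγ]⟩
    obtain ⟨f, hf⟩ := ab_surj Z 2
    obtain ⟨g, hg⟩ := lift_level (QuotientGroup.mk' (U r (FreeGroup Z)))
      (QuotientGroup.mk'_surjective _) f (by
        rw [QuotientGroup.ker_mk']
        intro x hx
        exact U_finite (by omega) f hx)
    have hgs : Function.Surjective g := by
      intro v
      obtain ⟨x, hx⟩ := hf v
      exact ⟨QuotientGroup.mk' _ x, by rw [hg, hx]⟩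
    exact rank_le le_rfl (g.comp fA) (hgs.comp hfAs)
  have hZ'1 : Nat.card Z' ≤ 1 := Finite.card_le_one_iff_subsingleton.2 inferInstance
  by_cases hιZ : Nat.card ι = Nat.card Z'
  · have h1 : Nat.card Y = Nat.card Z := by omega
    cases nonempty_fintype Y
    obtain ⟨ε⟩ : Nonempty (Y ≃ Z) := Fintype.card_eq.1 (by
      rw [← Nat.card_eq_fintype_card, ← Nat.card_eq_fintype_card]; exact h1)
    obtain ⟨E₃⟩ := z_free hιZ
    exact ⟨(E.trans (MulEquiv.prodCongr E₃ (FreeGroup.freeGroupCongr ε))).trans MulEquiv.prodComm⟩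
  · exfalso
    have h1 : Nat.card ι = 0 := by omega
    have h2 : Nat.card Z' = 1 := by omega
    have h3 : IsEmpty ι := Finite.card_eq_zero_iff.1 h1
    let E₄ : Γ ≃* FreeGroup Y := E.trans
      { toFun := fun x => x.2
        invFun := fun x => (1, x)
        left_inv := fun x => Prod.ext (Subsingleton.elim _ _) rfl
        right_inv := fun x => rfl
        map_mul' := fun x y => rfl }
    obtain ⟨-, ⟨z⟩⟩ := Nat.card_eq_one_iff_unique.1 h2
    have h4 : 1 < Nat.card Z := by
      rw [Nat.card_eq_fintype_card]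
      exact Fintype.one_lt_card_iff.2 ⟨s, t, hst⟩
    cases nonempty_fintype Y
    obtain ⟨a, b, hab'⟩ := Fintype.one_lt_card_iff.1 (show 1 < Fintype.card Y by
      rw [← Nat.card_eq_fintype_card]; omega)
    have hne : ((1, of z) : FreeGroup Z × FreeGroup Z') ≠ 1 := fun h =>
      FreeGroup.of_ne_one z (congrArg Prod.snd h)
    refine no_one h E₄ hΓ hab' hne hne (fun γ => ?_)
    refine Prod.ext ?_ ?_
    · show ⁅⁅(1 : FreeGroup Z), γ.1⁆, (1 : FreeGroup Z)⁆ = 1
      rw [commutatorElement_one_right]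
    · exact commutatorElement_eq_one_iff_mul_comm.2 (ab_comm _ _)

theorem main11 {Γ Z Z' : Type} [Group Γ] [Finite Z] [Finite Z'] [Subsingleton Z] [Subsingleton Z']
    (hΓ : Group.FG Γ) (hE : ∃ k, EmbF Γ k) (h : SameQ Γ (FreeGroup Z × FreeGroup Z')) :
    Nonempty (Γ ≃* FreeGroup Z × FreeGroup Z') := by
  classical
  cases nonempty_fintype Z
  cases nonempty_fintype Z'
  obtain ⟨k, X, e, he⟩ := hE
  have hG : Group.FG (FreeGroup Z × FreeGroup Z') := inferInstance
  have hcomm : ∀ x y : Γ, x * y = y * x := by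
    intro x y
    rw [← commutatorElement_eq_one_iff_mul_comm]
    by_contra hne
    obtain ⟨r, hr⟩ := rf he hne
    obtain ⟨f, -, hf⟩ := level hΓ hG h r
    apply hr
    rw [← hf, MonoidHom.mem_ker, map_commutatorElement]
    obtain ⟨a, ha⟩ := QuotientGroup.mk'_surjective _ (f x)
    obtain ⟨b, hb⟩ := QuotientGroup.mk'_surjective _ (f y)
    rw [← ha, ← hb, ← map_commutatorElement]
    have h1 : ⁅a, b⁆ = 1 := by
      rw [commutatorElement_eq_one_iff_mul_comm]
      exact Prod.ext (ab_comm _ _) (ab_comm _ _)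
    rw [h1, map_one]
  obtain ⟨ι, hι, ⟨E⟩⟩ := tf_abel hΓ hcomm (emb_tf he)
  have rk1 : Nat.card ι ≤ Nat.card Z + Nat.card Z' := by
    obtain ⟨f, hf⟩ := zf_surj (ι := ι) (Y := Empty)
    let E' : Multiplicative (ι → ℤ) →* Multiplicative (ι → ℤ) × FreeGroup Empty :=
      MonoidHom.inl _ _
    have hE' : Function.Surjective E' := fun x => ⟨x.1, Prod.ext rfl (Subsingleton.elim _ _)⟩
    obtain ⟨g, hg⟩ := (h _).1 ⟨(f.comp E').comp E.toMonoidHom, (hf.comp hE').comp E.surjective⟩
    have h1 := prod_rank_le le_rfl g hg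
    rw [Nat.card_sum] at h1
    omega
  have rk2 : Nat.card Z + Nat.card Z' ≤ Nat.card ι := by
    obtain ⟨f1, hf1⟩ := ab_surj Z 2
    obtain ⟨f2, hf2⟩ := ab_surj Z' 2
    obtain ⟨ε₁⟩ := z_free (Z := Z) (ι := Z) rfl
    obtain ⟨f, hf⟩ := zf_surj (ι := Z) (Y := Z')
    let E₅ : FreeGroup Z × FreeGroup Z' ≃* Multiplicative (Z → ℤ) × FreeGroup Z' :=
      MulEquiv.prodCongr ε₁.symm (MulEquiv.refl _)
    obtain ⟨g, hg⟩ := (h _).2 ⟨f.comp E₅.toMonoidHom, hf.comp E₅.surjective⟩
    cases nonempty_fintype ι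
    let ρ : FreeGroup ι →* Multiplicative (ι → ℤ) :=
      FreeGroup.lift fun i => Multiplicative.ofAdd (Pi.single i 1)
    have hρ : Function.Surjective ρ := by
      have hr : ∀ v : ι → ℤ, Multiplicative.ofAdd v ∈ ρ.range := by
        intro v
        have h1 : v = ∑ z, Pi.single z (v z) := (Finset.univ_sum_single v).symm
        rw [h1, ofAdd_sum]
        apply Subgroup.prod_mem
        intro z _
        refine ⟨of z ^ (v z), ?_⟩
        rw [map_zpow]
        have h2 : ρ (of z) = Multiplicative.ofAdd (Pi.single z 1) := FreeGroup.lift_apply_of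
        rw [h2, ← ofAdd_zsmul, ← Pi.single_smul, zsmul_one, Int.cast_id]
      intro v
      exact hr (Multiplicative.toAdd v)
    have h1 := rank_le le_rfl ((g.comp E.symm.toMonoidHom).comp ρ) ((hg.comp E.symm.surjective).comp hρ)
    rwa [Nat.card_sum] at h1
  have hcard : Nat.card ι = Nat.card (Z ⊕ Z') := by rw [Nat.card_sum]; omega
  cases nonempty_fintype ι
  obtain ⟨ε⟩ : Nonempty (ι ≃ Z ⊕ Z') := Fintype.card_eq.1 (by
    rw [← Nat.card_eq_fintype_card, ← Nat.card_eq_fintype_card]; exact hcard)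
  obtain ⟨E₁⟩ := z_free (Z := Z) (ι := Z) rfl
  obtain ⟨E₂⟩ := z_free (Z := Z') (ι := Z') rfl
  let E₃ : Multiplicative (ι → ℤ) ≃* Multiplicative (Z → ℤ) × Multiplicative (Z' → ℤ) :=
    { toFun := fun v => (Multiplicative.ofAdd fun z => Multiplicative.toAdd v (ε.symm (Sum.inl z)),
        Multiplicative.ofAdd fun z => Multiplicative.toAdd v (ε.symm (Sum.inr z)))
      invFun := fun w => Multiplicative.ofAdd fun i =>
        Sum.elim (Multiplicative.toAdd w.1) (Multiplicative.toAdd w.2) (ε i)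
      left_inv := fun v => by
        apply Multiplicative.toAdd.injective
        funext i
        show Sum.elim (fun z => Multiplicative.toAdd v (ε.symm (Sum.inl z)))
          (fun z => Multiplicative.toAdd v (ε.symm (Sum.inr z))) (ε i) = Multiplicative.toAdd v i
        rcases hi : ε i with z | z
        · show Multiplicative.toAdd v (ε.symm (Sum.inl z)) = _
          rw [← hi, Equiv.symm_apply_apply]
        · show Multiplicative.toAdd v (ε.symm (Sum.inr z)) = _
          rw [← hi, Equiv.symm_apply_apply]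
      right_inv := fun w => by
        refine Prod.ext ?_ ?_
        · apply Multiplicative.toAdd.injective
          funext z
          show Sum.elim (Multiplicative.toAdd w.1) (Multiplicative.toAdd w.2)
            (ε (ε.symm (Sum.inl z))) = _
          rw [Equiv.apply_symm_apply]
          rfl
        · apply Multiplicative.toAdd.injective
          funext z
          show Sum.elim (Multiplicative.toAdd w.1) (Multiplicative.toAdd w.2)
            (ε (ε.symm (Sum.inr z))) = _
          rw [Equiv.apply_symm_apply]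
          rfl
      map_mul' := fun v w => rfl }
  exact ⟨(E.trans E₃).trans (MulEquiv.prodCongr E₁ E₂)⟩

/-- all ranks -/
theorem main_all {Γ Z Z' : Type} [Group Γ] [Finite Z] [Finite Z']
    (hfp : Group.IsFinitelyPresented Γ) (hE : ∃ k, EmbF Γ k)
    (h : SameQ Γ (FreeGroup Z × FreeGroup Z')) : Nonempty (Γ ≃* FreeGroup Z × FreeGroup Z') := by
  by_cases hZ : ∃ s t : Z, s ≠ t
  · by_cases hZ' : ∃ s t : Z', s ≠ t
    · exact main22 hfp hE h hZ hZ'
    · push Not at hZ'
      have : Subsingleton Z' := ⟨hZ'⟩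
      exact main21 (fp_fg hfp) hE h hZ
  · push Not at hZ
    have : Subsingleton Z := ⟨hZ⟩
    by_cases hZ' : ∃ s t : Z', s ≠ t
    · have h2 : SameQ Γ (FreeGroup Z' × FreeGroup Z) := (h.symm.equiv MulEquiv.prodComm).symm
      obtain ⟨E⟩ := main21 (fp_fg hfp) hE h2 hZ'
      exact ⟨E.trans MulEquiv.prodComm⟩
    · push Not at hZ'
      have : Subsingleton Z' := ⟨hZ'⟩
      exact main11 (fp_fg hfp) hE h

end Pool.Agent.H20.PR
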